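import Pool.Agent.ResIdeal.ResGens

/-!
# Residue ideals: membership criteria and a local upper bound
-/

set_option autoImplicit false

open MvPolynomial

namespace Pool.Agent.ResIdeal

universe u

variable {K : Type u} [Field K]

/-- The ideal of a subspace is prime. -/
lemma subspaceIdeal_isPrime {n : ℕ} (X : Submodule K (Fin n → K)) :
    (subspaceIdeal X).IsPrime := by
  let b := Module.finBasis K X
  let φ : (Fin (Module.finrank K X) → K) →ₗ[K] (Fin n → K) :=
    X.subtype ∘ₗ (b.equivFun.symm : (Fin (Module.finrank K X) → K) →ₗ[K] X)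
  have hφ : Function.Injective φ := fun x y h => b.equivFun.symm.injective (Subtype.ext h)
  have hr : LinearMap.range φ = X := by
    rw [LinearMap.range_comp, LinearEquiv.range, Submodule.map_top, Submodule.range_subtype]
  have h := (pullback_surj_ker φ hφ).2
  rw [hr] at h
  rw [← h]
  exact RingHom.ker_isPrime _

lemma linForm_mem_subspaceIdeal {n : ℕ} (X : Submodule K (Fin n → K)) (c : Fin n → K) :
    linForm c ∈ subspaceIdeal X ↔ ∀ x ∈ X, c ⬝ᵥ x = 0 := by
  constructor
  · intro h x hx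
    have h1 : subspaceIdeal X ≤ RingHom.ker (MvPolynomial.eval x) := by
      rw [subspaceIdeal, Ideal.span_le]
      rintro f ⟨c, hc, rfl⟩
      rw [SetLike.mem_coe, RingHom.mem_ker, eval_linForm]
      exact hc x hx
    have h2 := h1 h
    rwa [RingHom.mem_ker, eval_linForm] at h2
  · intro h
    exact Ideal.subset_span ⟨c, h, rfl⟩

lemma linForm_cons {n : ℕ} (a : K) (c : Fin n → K) :
    linForm (Fin.cons a c : Fin (n + 1) → K) = C a * X 0 + rename Fin.succ (linForm c) := by
  simp [linForm, Fin.sum_univ_succ]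

/-- Non-proportional linear forms are relatively prime. -/
lemma isRelPrime_linForm {n : ℕ} {c d : Fin n → K} (hc : c ≠ 0) (h : ∀ t : K, d ≠ t • c) :
    IsRelPrime (linForm c) (linForm d) := by
  refine (prime_linForm hc).irreducible.isRelPrime_iff_not_dvd.mpr ?_
  intro hdvd
  obtain ⟨t, ht⟩ := exists_smul_of_linForm_dvd hdvd
  exact h t ht

namespace Arrangement

variable {ℓ : ℕ} (A : Arrangement K ℓ) (i : Fin A.card) {d : ℕ}
  (φ : (Fin d → K) ≃ₗ[K] A.hyperplane i)

lemma mem_residueIdeal {g : Fin ℓ → MvPolynomial (Fin ℓ) K} (hg : g ∈ A.logForm)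
    {γ f : MvPolynomial (Fin d) K} (hγ : ∀ k, pullback (A.par i φ) (g k) = C (A.α i k) * γ)
    (hf : γ = A.redQ i φ * f) : f ∈ A.residueIdeal i φ := by
  apply Ideal.subset_span
  refine ⟨g, hg, γ, hγ, ?_⟩
  rw [A.restQ_eq, hf]
  ring

lemma residueIdeal_le {I : Ideal (MvPolynomial (Fin d) K)}
    (h : ∀ g ∈ A.logForm, ∀ γ f : MvPolynomial (Fin d) K,
      (∀ k, pullback (A.par i φ) (g k) = C (A.α i k) * γ) → γ = A.redQ i φ * f → f ∈ I) :
    A.residueIdeal i φ ≤ I := by
  rw [residueIdeal, Ideal.span_le]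
  rintro f ⟨g, hg, γ, hγ, hf⟩
  refine h g hg γ f hγ ?_
  rw [A.restQ_eq, ← mul_assoc, mul_comm f, mul_assoc] at hf
  have hB : A.polyB i φ ≠ 0 := by
    intro h0
    apply A.restQ_ne_zero i φ
    rw [A.restQ_eq, h0, zero_mul]
  have := mul_left_cancel₀ hB hf
  rw [← this]
  ring

/-- Restricted forms of members divide the reduced defining polynomial of the restriction. -/
lemma dvd_redQ {j : Fin A.card} (hj : j ≠ i) :
    linForm (A.resVec i φ (A.α j)) ∣ A.redQ i φ := by
  classical
  let T : Finset (Fin A.card) := Finset.univ.filter (fun k => k ≠ i ∧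
    A.hyperplane k ⊓ A.hyperplane i = A.hyperplane j ⊓ A.hyperplane i)
  have hT : T.Nonempty := ⟨j, by simp [T, hj]⟩
  have hk := T.min'_mem hT
  set k := T.min' hT with hkdef
  simp only [T, Finset.mem_filter, Finset.mem_univ, true_and] at hk
  have hfirst : k ∈ A.firstReps i := by
    rw [firstReps, Finset.mem_filter]
    refine ⟨Finset.mem_univ _, hk.1, fun k' hk' hne heq => ?_⟩
    have : k' ∈ T := by
      simp only [T, Finset.mem_filter, Finset.mem_univ, true_and]
      exact ⟨hne, heq.trans hk.2⟩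
    exact absurd (T.min'_le k' this) (not_le.mpr hk')
  have h1 : A.resVec i φ (A.α k) ∈
      Submodule.span K (Set.range (fun _ : Fin 1 => A.resVec i φ (A.α j))) := by
    apply mem_span_of_vanish
    intro x hx
    have hx' := hx 0
    rw [resVec_dot] at hx' ⊢
    have h2 : A.par i φ x ∈ A.hyperplane j ⊓ A.hyperplane i := ⟨hx', A.par_mem i φ x⟩
    rw [← hk.2] at h2
    exact h2.1
  rw [Set.range_const, Submodule.mem_span_singleton] at h1
  obtain ⟨t, ht⟩ := h1
  have h3 : linForm (A.resVec i φ (A.α j)) ∣ linForm (A.resVec i φ (A.α k)) := by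
    rw [← ht, linForm_smul]
    exact dvd_mul_left _ _
  exact h3.trans (Finset.dvd_prod_of_mem _ hfirst)

/-- contraction of the defining condition of `Ω¹(A)` with two constant vectors -/
lemma contract {g : Fin ℓ → MvPolynomial (Fin ℓ) K} (hg : g ∈ A.logForm) (m : Fin A.card)
    (e e' : Fin ℓ → K) : linForm (A.α m) ∣
      (∑ j, g j * C (e j)) * C (A.α m ⬝ᵥ e') - (∑ j, g j * C (e' j)) * C (A.α m ⬝ᵥ e) := by
  have hC : ∀ v : Fin ℓ → K, (C (A.α m ⬝ᵥ v) : MvPolynomial (Fin ℓ) K) =
      ∑ k, C (A.α m k) * C (v k) := by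
    intro v
    rw [dotProduct, map_sum]
    exact Finset.sum_congr rfl fun k _ => C_mul
  have h : (∑ j, g j * C (e j)) * C (A.α m ⬝ᵥ e') - (∑ j, g j * C (e' j)) * C (A.α m ⬝ᵥ e) =
      ∑ j, ∑ k, C (e j) * C (e' k) * (g j * C (A.α m k) - g k * C (A.α m j)) := by
    rw [hC, hC, Finset.sum_mul_sum, Finset.sum_mul_sum,
      Finset.sum_comm (f := fun i j => g i * C (e' i) * (C (A.α m j) * C (e j))),
      ← Finset.sum_sub_distrib]
    refine Finset.sum_congr rfl fun j _ => ?_
    rw [← Finset.sum_sub_distrib]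
    refine Finset.sum_congr rfl fun k _ => ?_
    ring
  rw [h]
  exact Finset.dvd_sum fun j _ => Finset.dvd_sum fun k _ => (hg m j k).mul_left _

/-- contraction with the Euler vector field -/
lemma contract_euler {g : Fin ℓ → MvPolynomial (Fin ℓ) K} (hg : g ∈ A.logForm)
    (m : Fin A.card) : linForm (A.α m) ∣ ∑ j, g j * X j := by
  obtain ⟨k, hk⟩ := Function.ne_iff.mp (A.ne_zero m)
  simp only [Pi.zero_apply] at hk
  have h : linForm (A.α m) ∣ (∑ j, g j * X j) * C (A.α m k) := by
    have h1 : (∑ j, g j * X j) * C (A.α m k) =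
        (∑ j, X j * (g j * C (A.α m k) - g k * C (A.α m j))) + g k * linForm (A.α m) := by
      rw [linForm, Finset.mul_sum, ← Finset.sum_add_distrib, Finset.sum_mul]
      exact Finset.sum_congr rfl fun j _ => by ring
    rw [h1]
    exact dvd_add (Finset.dvd_sum fun j _ => (hg m j k).mul_left _) (dvd_mul_left _ _)
  have hu : IsUnit (C (A.α m k) : MvPolynomial (Fin ℓ) K) := (isUnit_iff_ne_zero.mpr hk).map C
  exact (hu.dvd_mul_right).mp h

end Arrangement

end Pool.Agent.ResIdeal
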