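import Pool.Agent.Hhelper83.ResQ1.Lower4

/-!
# Generic choices over an infinite field
-/

set_option autoImplicit false

open MvPolynomial

namespace Pool.Agent.ResIdeal

universe u

variable {K : Type u} [Field K]

/-! ## Generic properties -/

/-- properties holding on a non-empty Zariski open subset of `K^ι` -/
def Generic {ι : Type} (P : (ι → K) → Prop) : Prop :=
  ∃ f : MvPolynomial ι K, f ≠ 0 ∧ ∀ t, MvPolynomial.eval t f ≠ 0 → P t

lemma Generic.of_eval {ι : Type} {P : (ι → K) → Prop} (f : MvPolynomial ι K) (t0 : ι → K)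
    (h0 : MvPolynomial.eval t0 f ≠ 0) (h : ∀ t, MvPolynomial.eval t f ≠ 0 → P t) :
    Generic P := by
  refine ⟨f, ?_, h⟩
  rintro rfl
  exact h0 (map_zero _)

lemma Generic.imp {ι : Type} {Q : Prop} {P : (ι → K) → Prop} (h : Q → Generic P) :
    Generic (fun t => Q → P t) := by
  by_cases hQ : Q
  · obtain ⟨f, hf, hf'⟩ := h hQ
    exact ⟨f, hf, fun t ht _ => hf' t ht⟩
  · exact ⟨1, one_ne_zero, fun t _ hq => absurd hq hQ⟩

lemma Generic.and {ι : Type} {P Q : (ι → K) → Prop} (h : Generic P) (h' : Generic Q) :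
    Generic (fun t => P t ∧ Q t) := by
  obtain ⟨f, hf, hf'⟩ := h
  obtain ⟨g, hg, hg'⟩ := h'
  refine ⟨f * g, mul_ne_zero hf hg, fun t ht => ?_⟩
  rw [map_mul] at ht
  exact ⟨hf' t (left_ne_zero_of_mul ht), hg' t (right_ne_zero_of_mul ht)⟩

lemma Generic.all {ι κ : Type} [Finite κ] {P : κ → (ι → K) → Prop}
    (h : ∀ k, Generic (P k)) : Generic (fun t => ∀ k, P k t) := by
  have := Fintype.ofFinite κ
  choose f hf hf' using h
  refine ⟨∏ k, f k, Finset.prod_ne_zero_iff.mpr fun k _ => hf k, fun t ht k => ?_⟩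
  rw [map_prod, Finset.prod_ne_zero_iff] at ht
  exact hf' k t (ht k (Finset.mem_univ k))

lemma Generic.exists [Infinite K] {ι : Type} {P : (ι → K) → Prop} (h : Generic P) :
    ∃ t, P t := by
  obtain ⟨f, hf, hf'⟩ := h
  by_contra hcon
  apply hf
  apply MvPolynomial.funext
  intro t
  rw [map_zero]
  by_contra ht
  exact hcon ⟨t, hf' t ht⟩

/-! ## Linear algebra of a codimension two subspace -/

lemma exists_ker_basis {V : Type*} [AddCommGroup V] [Module K V] [FiniteDimensional K V]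
    (e : V →ₗ[K] K) (h2 : Module.finrank K V = 2) (he : e ≠ 0) :
    ∃ p d : V, e p = 1 ∧ e d = 0 ∧ d ≠ 0 ∧ ∀ c, ∃ t : K, c = e c • p + t • d := by
  have hsurj : Function.Surjective e := LinearMap.surjective he
  have hker : Module.finrank K (LinearMap.ker e) = 1 := by
    have h1 := LinearMap.finrank_range_add_finrank_ker e
    rw [LinearMap.range_eq_top.mpr hsurj, finrank_top, Module.finrank_self, h2] at h1
    omega
  obtain ⟨d, hd0, hd⟩ := (finrank_eq_one_iff' (K := K) (V := LinearMap.ker e)).mp hker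
  obtain ⟨p, hp⟩ := hsurj 1
  refine ⟨p, d, hp, d.2, fun h => hd0 (Subtype.ext h), fun c => ?_⟩
  have hmem : c - e c • p ∈ LinearMap.ker e := by
    rw [LinearMap.mem_ker, map_sub, map_smul, hp, smul_eq_mul, mul_one]
    exact sub_self _
  obtain ⟨t, ht⟩ := hd ⟨_, hmem⟩
  refine ⟨t, ?_⟩
  have h1 : t • (d : V) = c - e c • p := congrArg (fun v : LinearMap.ker e => (v : V)) ht
  rw [h1]
  abel

lemma exists_pd {n : ℕ} (X : Submodule K (Fin n → K)) (hX : Module.finrank K X + 2 = n)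
    (w : Fin n → K) (hw : w ∉ X) :
    ∃ p d : Fin n → K, p ⬝ᵥ w = 1 ∧ d ⬝ᵥ w = 0 ∧ d ≠ 0 ∧ (∀ x ∈ X, p ⬝ᵥ x = 0) ∧
      (∀ x ∈ X, d ⬝ᵥ x = 0) ∧
      ∀ c : Fin n → K, (∀ x ∈ X, c ⬝ᵥ x = 0) → ∃ t : K, c = (c ⬝ᵥ w) • p + t • d := by
  let W : Submodule K (Fin n → K) :=
    X.dualAnnihilator.comap (dotProductEquiv K (Fin n)).toLinearMap
  have hWmem : ∀ c, c ∈ W ↔ ∀ x ∈ X, c ⬝ᵥ x = 0 := by
    intro c
    simp only [W, Submodule.mem_comap, Submodule.mem_dualAnnihilator]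
    rfl
  have hWrank : Module.finrank K W = 2 := by
    have h1 := Subspace.finrank_add_finrank_dualAnnihilator_eq X
    rw [Module.finrank_fin_fun] at h1
    have h2 : Module.finrank K W = Module.finrank K X.dualAnnihilator :=
      LinearEquiv.finrank_eq ((dotProductEquiv K (Fin n)).ofSubmodule' X.dualAnnihilator)
    omega
  let e : W →ₗ[K] K :=
    { toFun := fun c => (c : Fin n → K) ⬝ᵥ w
      map_add' := fun a b => by simp [add_dotProduct]
      map_smul' := fun t a => by simp [smul_dotProduct] }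
  have he : e ≠ 0 := by
    intro h0
    apply hw
    rw [← Subspace.forall_mem_dualAnnihilator_apply_eq_zero_iff]
    intro φ hφ
    obtain ⟨c, rfl⟩ := (dotProductEquiv K (Fin n)).surjective φ
    have : e ⟨c, hφ⟩ = 0 := by rw [h0]; rfl
    exact this
  obtain ⟨p, d, hp, hd, hd0, hpd⟩ := exists_ker_basis e hWrank he
  refine ⟨p, d, hp, hd, fun h => hd0 (Subtype.ext h), (hWmem _).mp p.2, (hWmem _).mp d.2, ?_⟩
  intro c hc
  obtain ⟨t, ht⟩ := hpd ⟨c, (hWmem c).mpr hc⟩
  exact ⟨t, congrArg (fun v : W => (v : Fin n → K)) ht⟩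

lemma exists_w [Infinite K] {n m : ℕ} (Xs : Fin m → Submodule K (Fin n → K)) :
    ∃ w : Fin n → K, ∀ a b, w ∈ Xs a ⊔ Xs b → Xs a ⊔ Xs b = ⊤ := by
  classical
  let s : Finset (Submodule K (Fin n → K)) :=
    (Finset.univ.image (fun ab : Fin m × Fin m => Xs ab.1 ⊔ Xs ab.2)).filter (· ≠ ⊤)
  have hs : ⊤ ∉ s := by simp [s]
  have h := Subspace.biUnion_ne_univ_of_top_notMem hs
  obtain ⟨w, hw⟩ := (Set.ne_univ_iff_exists_notMem _).mp h
  refine ⟨w, fun a b hab => ?_⟩
  by_contra hne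
  apply hw
  simp only [Set.mem_iUnion]
  exact ⟨Xs a ⊔ Xs b, by simp [s, hne], hab⟩

lemma exists_dot_ne {n : ℕ} {X Y : Submodule K (Fin n → K)} (hX : Module.finrank K X + 2 = n)
    (hY : Module.finrank K Y + 2 = n) (hXY : X ≠ Y) {w d : Fin n → K}
    (hw : w ∈ X ⊔ Y → X ⊔ Y = ⊤) (hd0 : d ≠ 0) (hdw : d ⬝ᵥ w = 0)
    (hdX : ∀ x ∈ X, d ⬝ᵥ x = 0) : ∃ y ∈ Y, d ⬝ᵥ y ≠ 0 := by
  by_contra hcon
  push Not at hcon
  let N : Submodule K (Fin n → K) := LinearMap.ker (dotProductEquiv K (Fin n) d)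
  have hN : ∀ x, x ∈ N ↔ d ⬝ᵥ x = 0 := fun x => Iff.rfl
  have hle : X ⊔ Y ≤ N := sup_le (fun x hx => (hN x).mpr (hdX x hx))
    (fun y hy => (hN y).mpr (hcon y hy))
  have hNtop : N ≠ ⊤ := by
    intro h
    apply hd0
    funext j
    have : Pi.single j (1 : K) ∈ N := by rw [h]; trivial
    rw [hN, dotProduct_single, mul_one] at this
    exact this
  have hNlt : Module.finrank K N < n := by
    have := Submodule.finrank_lt hNtop
    rwa [Module.finrank_fin_fun] at this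
  have hlt : X < X ⊔ Y := by
    refine lt_of_le_of_ne le_sup_left fun h => hXY ?_
    have hYX : Y ≤ X := by
      rw [h]
      exact le_sup_right
    exact (Submodule.eq_of_le_of_finrank_eq hYX (by omega)).symm
  have hlt' := Submodule.finrank_lt_finrank_of_lt hlt
  have heq : X ⊔ Y = N := Submodule.eq_of_le_of_finrank_le hle (by omega)
  have hwN : w ∈ N := (hN w).mpr hdw
  rw [← heq] at hwN
  exact hNtop (heq ▸ hw hwN)

end Pool.Agent.ResIdeal
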