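import Pool.Agent.Hhelper83.ResQ1.Upper

/-!
# The arrangement attached to a generic system of linear forms
-/

set_option autoImplicit false

open MvPolynomial

namespace Pool.Agent.ResIdeal

universe u

variable {K : Type u} [Field K]

/-- An arrangement from a finite family of pairwise non-proportional vectors. -/
noncomputable def ofFamily {ℓ : ℕ} {ι : Type} [Fintype ι] (v : ι → Fin ℓ → K)
    (hne : ∀ x, v x ≠ 0) (hd : ∀ x y, x ≠ y → ∀ t : K, v y ≠ t • v x) : Arrangement K ℓ where
  card := Fintype.card ι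
  α := fun m => v ((Fintype.equivFin ι).symm m)
  ne_zero := fun m => hne _
  distinct := by
    intro m m' h
    by_contra hmm
    have h1 : v ((Fintype.equivFin ι).symm m') ∈
        Submodule.span K (Set.range (fun _ : Fin 1 => v ((Fintype.equivFin ι).symm m))) := by
      apply mem_span_of_vanish
      intro x hx
      exact (h x).mp (hx 0)
    rw [Set.range_const, Submodule.mem_span_singleton] at h1
    obtain ⟨t, ht⟩ := h1
    exact hd _ _ (fun h => hmm ((Fintype.equivFin ι).symm.injective h)) t ht.symm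

/-- Generic linear forms attached to codimension two subspaces: the forms `L i` and `L (st i)`
span the forms vanishing on `Xs i`, all forms take the value `1` at `w`, and differences are as
independent as possible. -/
structure Gen (K : Type u) [Field K] (n : ℕ) (I : Type) where
  st : I → I
  L : I → Fin n → K
  w : Fin n → K
  Xs : I → Submodule K (Fin n → K)
  st_ne : ∀ i, st i ≠ i
  st_st : ∀ i, st (st i) = i
  hw : ∀ i, L i ⬝ᵥ w = 1
  inj : Function.Injective L
  npar : ∀ i j k l : I, i ≠ j → j ≠ st i → k ≠ l → ¬ (k = i ∧ l = j) → ¬ (k = j ∧ l = i) →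
    ∀ t : K, L l - L k ≠ t • (L j - L i)
  vanish : ∀ i, ∀ x ∈ Xs i, L i ⬝ᵥ x = 0 ∧ L (st i) ⬝ᵥ x = 0
  span : ∀ i (c : Fin n → K), (∀ x ∈ Xs i, c ⬝ᵥ x = 0) → ∃ s t : K, c = s • L i + t • L (st i)
  out1 : ∀ i k, k ≠ i → k ≠ st i → linForm (L k) ∉ subspaceIdeal (Xs i)
  out2 : ∀ i k l, k ≠ l → l ≠ st k → linForm (L l - L k) ∉ subspaceIdeal (Xs i)

namespace Gen

variable {n : ℕ} {I : Type} (D : Gen K n I)

lemma cons_smul' (t a : K) (c : Fin n → K) :
    t • (Fin.cons a c : Fin (n + 1) → K) = Fin.cons (t * a) (t • c) := by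
  funext j
  refine Fin.cases ?_ (fun j => ?_) j <;> simp

lemma cons_eq_iff (a b : K) (c d : Fin n → K) :
    (Fin.cons a c : Fin (n + 1) → K) = Fin.cons b d ↔ a = b ∧ c = d := by
  constructor
  · intro h
    refine ⟨by simpa using congrFun h 0, ?_⟩
    funext j
    simpa using congrFun h j.succ
  · rintro ⟨rfl, rfl⟩
    rfl

lemma L_ne_zero (i : I) : D.L i ≠ 0 := by
  intro h
  have := D.hw i
  rw [h, zero_dotProduct] at this
  exact zero_ne_one this

lemma sub_dot (i j : I) : (D.L j - D.L i) ⬝ᵥ D.w = 0 := by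
  rw [sub_dotProduct, D.hw, D.hw, sub_self]

lemma sub_ne_zero {i j : I} (h : i ≠ j) : D.L j - D.L i ≠ 0 := by
  intro h0
  exact h (D.inj (sub_eq_zero.mp h0)).symm

lemma L_ne_smul_sub (i j k : I) (t : K) : D.L k ≠ t • (D.L j - D.L i) := by
  intro h
  have h1 := D.hw k
  rw [h, smul_dotProduct, D.sub_dot, smul_zero] at h1
  exact zero_ne_one h1

lemma sub_ne_smul_L {i j : I} (h : i ≠ j) (k : I) (t : K) : D.L j - D.L i ≠ t • D.L k := by
  intro h0
  have h1 := D.sub_dot i j
  rw [h0, smul_dotProduct, D.hw, smul_eq_mul, mul_one] at h1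
  rw [h1, zero_smul] at h0
  exact D.sub_ne_zero h h0

lemma L_ne_smul_L {i j : I} (h : i ≠ j) (t : K) : D.L j ≠ t • D.L i := by
  intro h0
  have h1 := D.hw j
  rw [h0, smul_dotProduct, D.hw, smul_eq_mul, mul_one] at h1
  rw [h1, one_smul] at h0
  exact h (D.inj h0).symm

variable [Fintype I]

/-- Indices of the unordered pairs not of the form `{i, st i}`. -/
def T : Type := {p : I × I // Fintype.equivFin I p.1 < Fintype.equivFin I p.2 ∧ p.2 ≠ D.st p.1}

noncomputable instance : Fintype D.T := by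
  classical
  exact inferInstanceAs (Fintype {p : I × I // Fintype.equivFin I p.1 < Fintype.equivFin I p.2 ∧
    p.2 ≠ D.st p.1})

lemma T_ne (p : D.T) : p.1.1 ≠ p.1.2 := by
  intro h
  have := p.2.1
  rw [h] at this
  exact lt_irrefl _ this

/-- The vectors defining the arrangement. -/
def vec : Option (I ⊕ I ⊕ D.T) → Fin (n + 1) → K
  | none => Fin.cons 1 0
  | some (Sum.inl i) => Fin.cons 0 (D.L i)
  | some (Sum.inr (Sum.inl i)) => Fin.cons (-1) (D.L i)
  | some (Sum.inr (Sum.inr p)) => Fin.cons 0 (D.L p.1.2 - D.L p.1.1)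

lemma vec_ne_zero (x : Option (I ⊕ I ⊕ D.T)) : D.vec x ≠ 0 := by
  have h0 : (0 : Fin (n + 1) → K) = Fin.cons 0 0 := by
    funext j
    refine Fin.cases ?_ (fun j => ?_) j <;> simp
  rw [h0]
  rcases x with _ | i | i | p
  · intro h
    exact one_ne_zero ((cons_eq_iff _ _ _ _).mp h).1
  · intro h
    exact D.L_ne_zero i ((cons_eq_iff _ _ _ _).mp h).2
  · intro h
    exact D.L_ne_zero i ((cons_eq_iff _ _ _ _).mp h).2
  · intro h
    exact D.sub_ne_zero (D.T_ne p) ((cons_eq_iff _ _ _ _).mp h).2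

lemma vec_npar (x y : Option (I ⊕ I ⊕ D.T)) (hxy : x ≠ y) (t : K) : D.vec y ≠ t • D.vec x := by
  intro h
  rcases x with _ | i | i | p <;> rcases y with _ | j | j | q
  · exact hxy rfl
  · rw [vec, vec, cons_smul', cons_eq_iff, smul_zero] at h
    exact D.L_ne_zero j h.2
  · rw [vec, vec, cons_smul', cons_eq_iff, smul_zero] at h
    exact D.L_ne_zero j h.2
  · rw [vec, vec, cons_smul', cons_eq_iff, smul_zero] at h
    exact D.sub_ne_zero (D.T_ne q) h.2
  · rw [vec, vec, cons_smul', cons_eq_iff, mul_zero] at h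
    exact one_ne_zero h.1
  · rw [vec, vec, cons_smul', cons_eq_iff] at h
    exact D.L_ne_smul_L (fun hij => hxy (by rw [hij])) t h.2
  · rw [vec, vec, cons_smul', cons_eq_iff, mul_zero, neg_eq_zero] at h
    exact one_ne_zero h.1
  · rw [vec, vec, cons_smul', cons_eq_iff] at h
    exact D.sub_ne_smul_L (D.T_ne q) i t h.2
  · rw [vec, vec, cons_smul', cons_eq_iff] at h
    obtain ⟨h1, h2⟩ := h
    have h3 : D.L i = 0 := by
      have ht : t ≠ 0 := by
        rintro rfl
        rw [zero_mul] at h1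
        exact one_ne_zero h1
      have h4 := congrArg (fun v => t⁻¹ • v) h2
      simp only [smul_zero, smul_smul, inv_mul_cancel₀ ht, one_smul] at h4
      exact h4.symm
    exact D.L_ne_zero i h3
  · rw [vec, vec, cons_smul', cons_eq_iff, mul_neg, mul_one] at h
    obtain ⟨h1, h2⟩ := h
    rw [eq_comm, neg_eq_zero] at h1
    rw [h1, zero_smul] at h2
    exact D.L_ne_zero j h2
  · rw [vec, vec, cons_smul', cons_eq_iff] at h
    exact D.L_ne_smul_L (fun hij => hxy (by rw [hij])) t h.2
  · rw [vec, vec, cons_smul', cons_eq_iff] at h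
    exact D.sub_ne_smul_L (D.T_ne q) i t h.2
  · rw [vec, vec, cons_smul', cons_eq_iff, mul_zero] at h
    exact one_ne_zero h.1
  · rw [vec, vec, cons_smul', cons_eq_iff] at h
    exact D.L_ne_smul_sub _ _ _ t h.2
  · rw [vec, vec, cons_smul', cons_eq_iff] at h
    exact D.L_ne_smul_sub _ _ _ t h.2
  · rw [vec, vec, cons_smul', cons_eq_iff] at h
    refine D.npar _ _ _ _ (D.T_ne p) p.2.2 (D.T_ne q) ?_ ?_ t h.2
    · rintro ⟨h1, h2⟩
      apply hxy
      congr 3
      exact Subtype.ext (Prod.ext h1.symm h2.symm)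
    · rintro ⟨h1, h2⟩
      have h3 := p.2.1
      have h4 := q.2.1
      rw [h1, h2] at h4
      exact lt_asymm h3 h4

/-- The arrangement `z, L, L - z, L' - L`. -/
noncomputable def arr : Arrangement K (n + 1) := ofFamily D.vec D.vec_ne_zero D.vec_npar

/-- the index of a member -/
noncomputable def idx (x : Option (I ⊕ I ⊕ D.T)) : Fin D.arr.card := Fintype.equivFin _ x

lemma arr_idx (x : Option (I ⊕ I ⊕ D.T)) : D.arr.α (D.idx x) = D.vec x := by
  change D.vec ((Fintype.equivFin _).symm (Fintype.equivFin _ x)) = D.vec x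
  rw [Equiv.symm_apply_apply]

lemma idx_surj (m : Fin D.arr.card) : ∃ x, D.idx x = m :=
  ⟨(Fintype.equivFin _).symm m, Equiv.apply_symm_apply _ _⟩

lemma idx_inj {x y : Option (I ⊕ I ⊕ D.T)} : D.idx x = D.idx y ↔ x = y :=
  (Fintype.equivFin _).injective.eq_iff

/-- the hyperplane `z = 0` with its coordinates -/
noncomputable def chart : (Fin n → K) ≃ₗ[K] D.arr.hyperplane (D.idx none) where
  toFun v := ⟨Fin.cons 0 v, by
    change D.arr.α (D.idx none) ⬝ᵥ (Fin.cons 0 v : Fin (n + 1) → K) = 0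
    rw [arr_idx]
    simp [vec, dotProduct, Fin.sum_univ_succ]⟩
  map_add' a b := by
    apply Subtype.ext
    funext j
    refine Fin.cases ?_ (fun j => ?_) j <;> simp
  map_smul' t a := by
    apply Subtype.ext
    funext j
    refine Fin.cases ?_ (fun j => ?_) j <;> simp
  invFun x := fun j => (x : Fin (n + 1) → K) j.succ
  left_inv v := by
    funext j
    simp
  right_inv x := by
    apply Subtype.ext
    funext j
    refine Fin.cases ?_ (fun j => ?_) j
    · have hx : D.arr.α (D.idx none) ⬝ᵥ (x : Fin (n + 1) → K) = 0 := x.2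
      rw [arr_idx] at hx
      simpa [vec, dotProduct, Fin.sum_univ_succ] using hx.symm
    · simp

lemma par_chart (v : Fin n → K) :
    D.arr.par (D.idx none) D.chart v = (Fin.cons 0 v : Fin (n + 1) → K) := rfl

lemma resVec_cons (a : K) (c : Fin n → K) :
    D.arr.resVec (D.idx none) D.chart (Fin.cons a c) = c := by
  funext k
  rw [Arrangement.resVec, par_chart]
  have : (Fin.cons a c : Fin (n + 1) → K) ⬝ᵥ (Fin.cons 0 (Pi.single k 1) : Fin (n + 1) → K) =
      c ⬝ᵥ Pi.single k 1 := by
    simp [dotProduct, Fin.sum_univ_succ]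
  rw [this, dotProduct_single, mul_one]

lemma pullback_rename (f : MvPolynomial (Fin n) K) :
    pullback (D.arr.par (D.idx none) D.chart) (rename Fin.succ f) = f := by
  have h : (pullback (D.arr.par (D.idx none) D.chart)).comp (rename Fin.succ) =
      AlgHom.id K _ := by
    apply MvPolynomial.algHom_ext
    intro j
    rw [AlgHom.comp_apply, rename_X, pullback_X, AlgHom.id_apply, ← linForm_single j]
    congr 1
    funext k
    rw [par_chart]
    simp [Pi.single_apply, eq_comm]
  exact congrArg (fun F => F f) h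

lemma pullback_X0 : pullback (D.arr.par (D.idx none) D.chart) (X 0) = 0 := by
  rw [pullback_X]
  have : (fun k => D.arr.par (D.idx none) D.chart (Pi.single k 1) 0) = 0 := by
    funext k
    rw [par_chart]
    simp
  rw [this]
  simp [linForm]

/-! ## The upper bound -/

lemma exists_dual (i : I) : ∃ e : Fin n → K, D.L i ⬝ᵥ e = 1 ∧ D.L (D.st i) ⬝ᵥ e = 0 := by
  by_contra hcon
  have h1 : D.L i ∈ Submodule.span K (Set.range (fun _ : Fin 1 => D.L (D.st i))) := by
    apply mem_span_of_vanish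
    intro x hx
    by_contra hne
    apply hcon
    refine ⟨(D.L i ⬝ᵥ x)⁻¹ • x, ?_, ?_⟩
    · rw [dotProduct_smul, smul_eq_mul, inv_mul_cancel₀ hne]
    · rw [dotProduct_smul, hx 0, smul_zero]
  rw [Set.range_const, Submodule.mem_span_singleton] at h1
  obtain ⟨t, ht⟩ := h1
  exact D.L_ne_smul_L (D.st_ne i) t ht.symm

theorem residueIdeal_le (i : I) :
    D.arr.residueIdeal (D.idx none) D.chart ≤ subspaceIdeal (D.Xs i) := by
  obtain ⟨e1, h11, h12⟩ := D.exists_dual i
  obtain ⟨e2, h21, h22⟩ := D.exists_dual (D.st i)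
  rw [D.st_st] at h22
  refine D.arr.residueIdeal_le_subspaceIdeal (D.idx none) D.chart (D.Xs i)
    (D.idx (some (Sum.inl i))) (D.idx (some (Sum.inr (Sum.inl i))))
    (D.idx (some (Sum.inl (D.st i)))) (D.idx (some (Sum.inr (Sum.inl (D.st i)))))
    ?_ ?_ (Fin.cons 1 0) (Fin.cons 0 e1) (Fin.cons 0 e2) ?_ ?_ ?_ ?_ ?_ ?_ ?_ ?_ ?_ ?_ ?_ ?_
  · rw [arr_idx, arr_idx, arr_idx, vec, vec, vec]
    funext j
    refine Fin.cases ?_ (fun j => ?_) j <;> simp
  · rw [arr_idx, arr_idx, arr_idx, vec, vec, vec]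
    funext j
    refine Fin.cases ?_ (fun j => ?_) j <;> simp
  · rw [arr_idx]; simp [vec, dotProduct, Fin.sum_univ_succ]
  · rw [arr_idx]; simp [vec, dotProduct, Fin.sum_univ_succ]
  · rw [arr_idx]; simp [vec, dotProduct, Fin.sum_univ_succ]
  · rw [arr_idx]; simp [vec, dotProduct, Fin.sum_univ_succ]
  · rw [arr_idx]; simpa [vec, dotProduct, Fin.sum_univ_succ] using h11
  · rw [arr_idx]; simpa [vec, dotProduct, Fin.sum_univ_succ] using h22
  · rw [arr_idx]; simp [vec, dotProduct, Fin.sum_univ_succ]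
  · rw [arr_idx]; simpa [vec, dotProduct, Fin.sum_univ_succ] using h12
  · rw [arr_idx]; simpa [vec, dotProduct, Fin.sum_univ_succ] using h21
  · rw [arr_idx, vec, resVec_cons, linForm_mem_subspaceIdeal]
    exact fun x hx => (D.vanish i x hx).1
  · rw [arr_idx, vec, resVec_cons, linForm_mem_subspaceIdeal]
    exact fun x hx => (D.vanish i x hx).2
  · intro m h0 h1 h2 h3 h4
    obtain ⟨x, rfl⟩ := D.idx_surj m
    simp only [ne_eq, idx_inj] at h0 h1 h2 h3 h4
    rw [arr_idx]
    rcases x with _ | k | k | p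
    · exact absurd rfl h0
    · rw [vec, resVec_cons]
      refine D.out1 i k (fun h => h1 (by rw [h])) (fun h => h3 (by rw [h]))
    · rw [vec, resVec_cons]
      refine D.out1 i k (fun h => h2 (by rw [h])) (fun h => h4 (by rw [h]))
    · rw [vec, resVec_cons]
      exact D.out2 i _ _ (D.T_ne p) p.2.2

end Gen

end Pool.Agent.ResIdeal
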