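import Mathlib

/-!
# Monochromatic planes in scale invariant colourings of vector spaces over finite fields

A special case of the Graham-Leeb-Rothschild theorem, deduced from the multidimensional
Hales-Jewett theorem.
-/

set_option autoImplicit false

namespace Pool.Agent.ResIdeal

universe u

variable {K : Type u} [Field K]

theorem exists_mono_plane (K : Type u) [Field K] [Finite K] :
    ∃ n : ℕ, ∀ c : (Fin n → K) → Prop, (∀ (t : K) (v : Fin n → K), t ≠ 0 → (c (t • v) ↔ c v)) →
      ∃ p q : Fin n → K, (∀ s t : K, s • p + t • q = 0 → s = 0 ∧ t = 0) ∧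
        ((∀ s t : K, (s ≠ 0 ∨ t ≠ 0) → c (s • p + t • q)) ∨
          (∀ s t : K, (s ≠ 0 ∨ t ≠ 0) → ¬ c (s • p + t • q))) := by
  classical
  obtain ⟨n, hn⟩ := Combinatorics.Subspace.exists_mono_in_high_dimension_fin K Prop (Fin 2)
  refine ⟨n + 1, fun c hc => ?_⟩
  obtain ⟨l, col, hl⟩ := hn fun v => c (Fin.cons 1 v)
  -- the affine plane
  let v0 : Fin n → K := fun i => (l.idxFun i).elim id (fun _ => 0)
  let u : Fin 2 → Fin n → K := fun e i => if l.idxFun i = Sum.inr e then 1 else 0
  have hlx : ∀ x : Fin 2 → K, (l x : Fin n → K) = v0 + (x 0 • u 0 + x 1 • u 1) := by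
    intro x
    funext i
    rw [Combinatorics.Subspace.coe_apply]
    simp only [v0, u, Pi.add_apply, Pi.smul_apply, smul_eq_mul]
    rcases h : l.idxFun i with a | e
    · simp
    · fin_cases e <;> simp
  have hind : ∀ s t : K, s • u 0 + t • u 1 = 0 → s = 0 ∧ t = 0 := by
    intro s t h
    obtain ⟨i0, hi0⟩ := l.proper 0
    obtain ⟨i1, hi1⟩ := l.proper 1
    have h0 := congrFun h i0
    have h1 := congrFun h i1
    simp only [u, Pi.add_apply, Pi.smul_apply, smul_eq_mul, hi0, Pi.zero_apply] at h0
    simp only [u, Pi.add_apply, Pi.smul_apply, smul_eq_mul, hi1, Pi.zero_apply] at h1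
    simp only [Sum.inr.injEq, if_true, mul_one, zero_ne_one, if_false, mul_zero, add_zero] at h0
    simp only [Sum.inr.injEq, if_true, mul_one, one_ne_zero, if_false, mul_zero, zero_add] at h1
    exact ⟨h0, h1⟩
  have hcol : ∀ x y : K, c (Fin.cons 1 (v0 + (x • u 0 + y • u 1))) = col := by
    intro x y
    have := hl ![x, y]
    rw [hlx] at this
    simpa using this
  have hcons0 : ∀ (s t : K) (a b : Fin n → K),
      s • (Fin.cons 0 a : Fin (n + 1) → K) + t • (Fin.cons 0 b : Fin (n + 1) → K) =
        Fin.cons 0 (s • a + t • b) := by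
    intro s t a b
    funext j
    refine Fin.cases ?_ (fun j => ?_) j <;> simp
  by_cases hex : ∃ x y : K, (x ≠ 0 ∨ y ≠ 0) ∧
      c (Fin.cons 0 (x • u 0 + y • u 1)) = col
  · obtain ⟨x, y, hxy, hcxy⟩ := hex
    have hne : x • u 0 + y • u 1 ≠ 0 := by
      intro h
      obtain ⟨hx, hy⟩ := hind x y h
      rcases hxy with h | h
      · exact h hx
      · exact h hy
    refine ⟨Fin.cons 1 v0, Fin.cons 0 (x • u 0 + y • u 1), ?_, ?_⟩
    · intro s t h
      have h0 := congrFun h 0
      simp only [Pi.add_apply, Pi.smul_apply, Fin.cons_zero, smul_eq_mul, mul_one, mul_zero,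
        add_zero, Pi.zero_apply] at h0
      refine ⟨h0, ?_⟩
      by_contra ht
      apply hne
      funext j
      have h1 := congrFun h j.succ
      rw [h0] at h1
      simp only [Pi.add_apply, Pi.smul_apply, Fin.cons_succ, smul_eq_mul, zero_mul, zero_add,
        Pi.zero_apply] at h1
      exact (mul_eq_zero.mp h1).resolve_left ht
    · have key : ∀ s t : K, (s ≠ 0 ∨ t ≠ 0) →
          (c (s • Fin.cons 1 v0 + t • Fin.cons 0 (x • u 0 + y • u 1)) ↔ col) := by
        intro s t hst
        by_cases hs : s = 0
        · have ht : t ≠ 0 := by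
            rcases hst with h | h
            · exact absurd hs h
            · exact h
          rw [hs, zero_smul, zero_add, hc t _ ht, hcxy]
        · have e1 : s • (Fin.cons 1 v0 : Fin (n + 1) → K) +
              t • (Fin.cons 0 (x • u 0 + y • u 1) : Fin (n + 1) → K) =
              s • (Fin.cons 1 (v0 + ((s⁻¹ * t * x) • u 0 + (s⁻¹ * t * y) • u 1)) :
                Fin (n + 1) → K) := by
            funext j
            refine Fin.cases ?_ (fun j => ?_) j
            · simp
            · simp only [Pi.add_apply, Pi.smul_apply, Fin.cons_succ, smul_eq_mul]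
              field_simp
          rw [e1, hc s _ hs, hcol]
      by_cases hcolP : col
      · exact Or.inl fun s t hst => (key s t hst).mpr hcolP
      · exact Or.inr fun s t hst h => hcolP ((key s t hst).mp h)
  · push Not at hex
    refine ⟨Fin.cons 0 (u 0), Fin.cons 0 (u 1), ?_, ?_⟩
    · intro s t h
      rw [hcons0] at h
      apply hind
      funext j
      have := congrFun h j.succ
      simpa using this
    · have key : ∀ s t : K, (s ≠ 0 ∨ t ≠ 0) →
          (c (s • Fin.cons 0 (u 0) + t • Fin.cons 0 (u 1)) ↔ ¬ col) := by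
        intro s t hst
        rw [hcons0]
        have h1 := hex s t hst
        by_cases hcc : c (Fin.cons 0 (s • u 0 + t • u 1)) <;> by_cases hcolP : col
        · exact absurd (by simp [hcc, hcolP]) h1
        · simp [hcc, hcolP]
        · simp [hcc, hcolP]
        · exact absurd (by simp [hcc, hcolP]) h1
      by_cases hcolP : col
      · exact Or.inr fun s t hst h => (key s t hst).mp h hcolP
      · exact Or.inl fun s t hst => (key s t hst).mpr hcolP

end Pool.Agent.ResIdeal
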