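import Pool.Agent.Hhelper83.ResQ1.Upper
import Pool.Agent.Hhelper83.ResQ1.Ramsey

/-!
# Over a finite field not every codimension 2 arrangement is a residue ideal
-/

set_option autoImplicit false

open MvPolynomial

namespace Pool.Agent.ResIdeal

universe u

variable {K : Type u} [Field K]

lemma field_aux1 {F : Type u} [Field F] (x y t : F) (hy : y ≠ 0) :
    x - t * y = y * (x / y - t) := by
  field_simp

lemma field_aux2 {F : Type u} [Field F] (x y : F) (hy : y ≠ 0) (m : ℕ) :
    y * (y ^ m * ((x / y) ^ m - x / y)) = y * x ^ m - y ^ m * x := by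
  rw [div_pow]
  field_simp

/-- `v ∏_t (u - t v) = v u^q - v^q u` over the field with `q` elements. -/
lemma prod_sub_smul {R : Type u} [CommRing R] [IsDomain R] [Algebra K R] [Fintype K] (a b : R) :
    b * ∏ t : K, (a - algebraMap K R t * b) =
      b * a ^ Fintype.card K - b ^ Fintype.card K * a := by
  classical
  have h1 : (∏ t : K, (Polynomial.X - Polynomial.C t) : Polynomial K) =
      Polynomial.X ^ Fintype.card K - Polynomial.X := by
    have hmonic : (Polynomial.X ^ Fintype.card K - Polynomial.X : Polynomial K).Monic := by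
      apply Polynomial.monic_X_pow_sub
      rw [Polynomial.degree_X]
      exact_mod_cast Fintype.one_lt_card
    have h2 := Polynomial.prod_multiset_X_sub_C_of_monic_of_roots_card_eq hmonic (by
      rw [FiniteField.roots_X_pow_card_sub_X,
        FiniteField.X_pow_card_sub_X_natDegree_eq K Fintype.one_lt_card]
      rfl)
    rw [FiniteField.roots_X_pow_card_sub_X] at h2
    exact h2
  -- homogenise in the fraction field
  by_cases hb : b = 0
  · rw [hb, zero_mul, zero_mul, zero_pow Fintype.card_ne_zero, zero_mul, sub_zero]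
  let F := FractionRing R
  have hinj : Function.Injective (algebraMap R F) := IsFractionRing.injective R F
  apply hinj
  have hb' : algebraMap R F b ≠ 0 := by
    intro h
    exact hb (hinj (by rw [h, map_zero]))
  have h3 := congrArg (Polynomial.aeval (algebraMap R F a / algebraMap R F b)) h1
  simp only [map_prod, map_sub, Polynomial.aeval_X, Polynomial.aeval_C, map_pow] at h3
  simp only [map_mul, map_prod, map_sub, map_pow]
  have h4 : ∀ t : K, algebraMap R F a - algebraMap R F (algebraMap K R t) * algebraMap R F b =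
      algebraMap R F b * (algebraMap R F a / algebraMap R F b - algebraMap K F t) := by
    intro t
    rw [← IsScalarTower.algebraMap_apply K R F]
    exact field_aux1 _ _ _ hb'
  rw [Finset.prod_congr rfl fun t _ => h4 t, Finset.prod_mul_distrib, h3, Finset.prod_const,
    Finset.card_univ]
  exact field_aux2 _ _ hb' _

namespace Arrangement

variable {ℓ : ℕ} (A : Arrangement K ℓ) (i : Fin A.card) {d : ℕ}
  (φ : (Fin d → K) ≃ₗ[K] A.hyperplane i)

lemma polyB_mem : A.polyB i φ ∈ A.residueIdeal i φ := by
  classical
  refine A.mem_residueIdeal i φ (g := fun k =>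
    (∏ j ∈ Finset.univ.filter (fun j => j ≠ i), linForm (A.α j)) * C (A.α i k))
    (γ := A.restQ i φ) ?_ ?_ ?_
  · intro m j k
    by_cases hm : m = i
    · subst hm
      have : (∏ j ∈ Finset.univ.filter (fun j => j ≠ m), linForm (A.α j)) * C (A.α m j) *
          C (A.α m k) - (∏ j ∈ Finset.univ.filter (fun j => j ≠ m), linForm (A.α j)) *
          C (A.α m k) * C (A.α m j) = 0 := by ring
      rw [this]
      exact dvd_zero _
    · have h1 : linForm (A.α m) ∣
          ∏ j ∈ Finset.univ.filter (fun j => j ≠ i), linForm (A.α j) :=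
        Finset.dvd_prod_of_mem _ (by simp [hm])
      exact dvd_sub ((h1.mul_right _).mul_right _) ((h1.mul_right _).mul_right _)
  · intro k
    rw [map_mul, map_prod]
    have : pullback (A.par i φ) (C (A.α i k)) = C (A.α i k) := (pullback (A.par i φ)).commutes _
    rw [this, mul_comm]
    rfl
  · rw [A.restQ_eq]; ring

/-- The restriction of vectors as a linear map. -/
noncomputable def resLin : (Fin ℓ → K) →ₗ[K] (Fin d → K) where
  toFun := A.resVec i φ
  map_add' a b := by
    ext k
    simp only [resVec, Pi.add_apply]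
    rw [add_dotProduct]
  map_smul' t a := by
    ext k
    simp only [resVec, Pi.smul_apply, RingHom.id_apply, smul_eq_mul]
    rw [smul_dotProduct, smul_eq_mul]

lemma resVec_eq_zero {c : Fin ℓ → K} (hc : A.resVec i φ c = 0) : ∃ t : K, c = t • A.α i := by
  have h1 : c ∈ Submodule.span K (Set.range (fun _ : Fin 1 => A.α i)) := by
    apply mem_span_of_vanish
    intro x hx
    obtain ⟨w, rfl⟩ := A.par_surj i φ x (hx 0)
    rw [← resVec_dot, hc, zero_dotProduct]
  rw [Set.range_const, Submodule.mem_span_singleton] at h1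
  obtain ⟨t, ht⟩ := h1
  exact ⟨t, ht.symm⟩

/-- If a codimension two subspace `U` of `H` lies in some component of the zero set of the residue
ideal, then some but not all of the hyperplanes of `H` through `U` are members of `A^H`, when `K`
is finite. -/
theorem not_le_of_mono [Finite K] (U : Submodule K (Fin d → K)) (u0 v0 : Fin d → K)
    (hind : ∀ s t : K, s • u0 + t • v0 = 0 → s = 0 ∧ t = 0)
    (hU : ∀ x, x ∈ U ↔ u0 ⬝ᵥ x = 0 ∧ v0 ⬝ᵥ x = 0)
    (hmono : (∀ s t : K, (s ≠ 0 ∨ t ≠ 0) →
        ∃ j, j ≠ i ∧ ∃ r : K, r ≠ 0 ∧ A.resVec i φ (A.α j) = r • (s • u0 + t • v0)) ∨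
      (∀ s t : K, (s ≠ 0 ∨ t ≠ 0) →
        ¬ ∃ j, j ≠ i ∧ ∃ r : K, r ≠ 0 ∧ A.resVec i φ (A.α j) = r • (s • u0 + t • v0))) :
    ¬ A.residueIdeal i φ ≤ subspaceIdeal U := by
  classical
  have := Fintype.ofFinite K
  intro hle
  have hprime := subspaceIdeal_isPrime U
  -- forms in the ideal of `U`
  have hform : ∀ c : Fin d → K, linForm c ∈ subspaceIdeal U → ∃ s t : K, c = s • u0 + t • v0 := by
    intro c hc
    rw [linForm_mem_subspaceIdeal] at hc
    have h1 : c ∈ Submodule.span K (Set.range ![u0, v0]) := by
      apply mem_span_of_vanish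
      intro x hx
      exact hc x ((hU x).mpr ⟨hx 0, hx 1⟩)
    rw [Matrix.range_cons, Matrix.range_cons, Matrix.range_empty, Set.union_empty,
      Set.singleton_union, Submodule.mem_span_pair] at h1
    obtain ⟨s, t, h⟩ := h1
    exact ⟨s, t, h.symm⟩
  have hform' : ∀ s t : K, linForm (s • u0 + t • v0) ∈ subspaceIdeal U := by
    intro s t
    rw [linForm_mem_subspaceIdeal]
    intro x hx
    obtain ⟨h1, h2⟩ := (hU x).mp hx
    rw [add_dotProduct, smul_dotProduct, smul_dotProduct, h1, h2, smul_zero, smul_zero, add_zero]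
  have hst : ∀ s t : K, (s ≠ 0 ∨ t ≠ 0) → s • u0 + t • v0 ≠ 0 := by
    intro s t h h0
    obtain ⟨h1, h2⟩ := hind s t h0
    rcases h with h | h
    · exact h h1
    · exact h h2
  rcases hmono with hall | hnone
  · -- all directions are restricted members
    obtain ⟨ju, hjui, ru, hru, hju⟩ := hall 1 0 (Or.inl one_ne_zero)
    obtain ⟨jv, hjvi, rv, hrv, hjv⟩ := hall 0 1 (Or.inr one_ne_zero)
    rw [one_smul, zero_smul, add_zero] at hju
    rw [one_smul, zero_smul, zero_add] at hjv
    obtain ⟨uh, huh⟩ : ∃ uh : Fin ℓ → K, A.resVec i φ uh = u0 := by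
      refine ⟨ru⁻¹ • A.α ju, ?_⟩
      have : A.resVec i φ (ru⁻¹ • A.α ju) = ru⁻¹ • A.resVec i φ (A.α ju) :=
        (A.resLin i φ).map_smul _ _
      rw [this, hju, smul_smul, inv_mul_cancel₀ hru, one_smul]
    obtain ⟨vh, hvh⟩ : ∃ vh : Fin ℓ → K, A.resVec i φ vh = v0 := by
      refine ⟨rv⁻¹ • A.α jv, ?_⟩
      have : A.resVec i φ (rv⁻¹ • A.α jv) = rv⁻¹ • A.resVec i φ (A.α jv) :=
        (A.resLin i φ).map_smul _ _
      rw [this, hjv, smul_smul, inv_mul_cancel₀ hrv, one_smul]
    -- the members outside the pencil
    let T : Finset (Fin A.card) := Finset.univ.filter (fun m => m ≠ i ∧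
      linForm (A.resVec i φ (A.α m)) ∉ subspaceIdeal U)
    let Qo : MvPolynomial (Fin ℓ) K := ∏ m ∈ T, linForm (A.α m)
    have hin : ∀ m, m ∉ T → ∃ x y z : K, A.α m = x • A.α i + (y • uh + z • vh) := by
      intro m hm
      by_cases hmi : m = i
      · exact ⟨1, 0, 0, by rw [hmi]; simp⟩
      · have h1 : linForm (A.resVec i φ (A.α m)) ∈ subspaceIdeal U := by
          by_contra hcon
          exact hm (by simp [T, hmi, hcon])
        obtain ⟨y, z, hyz⟩ := hform _ h1
        have h2 : A.resVec i φ (A.α m - (y • uh + z • vh)) = 0 := by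
          have : A.resVec i φ (A.α m - (y • uh + z • vh)) = A.resVec i φ (A.α m) -
              (y • A.resVec i φ uh + z • A.resVec i φ vh) := by
            have := (A.resLin i φ).map_sub (A.α m) (y • uh + z • vh)
            rw [map_add, map_smul, map_smul] at this
            exact this
          rw [this, huh, hvh, hyz, sub_self]
        obtain ⟨x, hx⟩ := A.resVec_eq_zero i φ h2
        refine ⟨x, y, z, ?_⟩
        rw [← hx]
        abel
    -- Frobenius
    let Fr := FiniteField.frobeniusAlgHom K (MvPolynomial (Fin ℓ) K)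
    have hFr : ∀ x, Fr x = x ^ Fintype.card K := fun x => rfl
    have hFrC : ∀ t : K, Fr (C t) = C t := fun t => Fr.commutes t
    set a := linForm (A.α i) with ha
    set U1 := linForm uh with hU1
    set V1 := linForm vh with hV1
    let Ma := U1 * Fr V1 - V1 * Fr U1
    let Mu := V1 * Fr a - a * Fr V1
    let Mv := a * Fr U1 - U1 * Fr a
    let g : Fin ℓ → MvPolynomial (Fin ℓ) K := fun k =>
      Qo * (Ma * C (A.α i k) + Mu * C (uh k) + Mv * C (vh k))
    have hg : g ∈ A.logForm := by
      intro m j k
      by_cases hm : m ∈ T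
      · have h1 : linForm (A.α m) ∣ Qo := Finset.dvd_prod_of_mem _ hm
        exact dvd_sub ((h1.mul_right _).mul_right _) ((h1.mul_right _).mul_right _)
      · obtain ⟨x, y, z, hxyz⟩ := hin m hm
        have hα : linForm (A.α m) = C x * a + (C y * U1 + C z * V1) := by
          rw [hxyz, linForm_add, linForm_add, linForm_smul, linForm_smul, linForm_smul]
        set α := linForm (A.α m) with hαdef
        have hFα : Fr α = C x * Fr a + (C y * Fr U1 + C z * Fr V1) := by
          rw [hα, map_add, map_add, map_mul, map_mul, map_mul, hFrC, hFrC, hFrC]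
        have hdvd : α ∣ Fr α := by
          rw [hFr]
          exact dvd_pow_self _ Fintype.card_ne_zero
        obtain ⟨β, hβ⟩ := hdvd
        have hk : ∀ k, (C (A.α m k) : MvPolynomial (Fin ℓ) K) =
            C x * C (A.α i k) + (C y * C (uh k) + C z * C (vh k)) := by
          intro k
          rw [hxyz]
          simp only [Pi.add_apply, Pi.smul_apply, smul_eq_mul, C_add, C_mul]
        refine ⟨Qo * ((Fr V1 - V1 * β) * (C (A.α i j) * C (uh k) - C (A.α i k) * C (uh j)) +
          (U1 * β - Fr U1) * (C (A.α i j) * C (vh k) - C (A.α i k) * C (vh j)) +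
          (Fr a - a * β) * (C (uh j) * C (vh k) - C (uh k) * C (vh j))), ?_⟩
        have e1 : Ma * C y - Mu * C x = α * (Fr V1 - V1 * β) := by
          simp only [Ma, Mu]
          linear_combination (-V1) * hβ + V1 * hFα - Fr V1 * hα
        have e2 : Ma * C z - Mv * C x = α * (U1 * β - Fr U1) := by
          simp only [Ma, Mv]
          linear_combination U1 * hβ - U1 * hFα + Fr U1 * hα
        have e3 : Mu * C z - Mv * C y = α * (Fr a - a * β) := by
          simp only [Mu, Mv]
          linear_combination (-a) * hβ + a * hFα - Fr a * hα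
        simp only [g]
        rw [hk, hk]
        linear_combination Qo * (C (A.α i j) * C (uh k) - C (A.α i k) * C (uh j)) * e1 +
          Qo * (C (A.α i j) * C (vh k) - C (A.α i k) * C (vh j)) * e2 +
          Qo * (C (uh j) * C (vh k) - C (uh k) * C (vh j)) * e3
    have hCp : ∀ t : K, pullback (A.par i φ) (C t) = C t := fun t =>
      (pullback (A.par i φ)).commutes t
    set ub := linForm u0 with hub
    set vb := linForm v0 with hvb
    set q := Fintype.card K with hq
    have hq0 : q ≠ 0 := Fintype.card_ne_zero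
    have hPa : pullback (A.par i φ) a = 0 := by
      rw [ha, A.pullback_par', A.resVec_self]
      simp [linForm]
    have hPu : pullback (A.par i φ) U1 = ub := by rw [hU1, A.pullback_par', huh]
    have hPv : pullback (A.par i φ) V1 = vb := by rw [hV1, A.pullback_par', hvh]
    have hγ : ∀ k, pullback (A.par i φ) (g k) =
        C (A.α i k) * (pullback (A.par i φ) Qo * (ub * vb ^ q - vb * ub ^ q)) := by
      intro k
      simp only [g, Ma, Mu, Mv, hFr, map_mul, map_add, map_sub, map_pow, hPa, hPu, hPv, hCp,
        zero_pow hq0]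
      ring
    obtain ⟨f, hf⟩ := A.redQ_dvd i φ hg hγ
    have hfJ : f ∈ A.residueIdeal i φ := A.mem_residueIdeal i φ hg hγ hf
    have hfU := hle hfJ
    -- the product over all directions divides `redQ`
    have hdir : ∀ s t : K, (s ≠ 0 ∨ t ≠ 0) → linForm (s • u0 + t • v0) ∣ A.redQ i φ := by
      intro s t hst'
      obtain ⟨j, hj, r, hr, hjr⟩ := hall s t hst'
      refine dvd_trans ?_ (A.dvd_redQ i φ hj)
      rw [hjr, linForm_smul]
      exact dvd_mul_left _ _
    have hW : vb * ∏ t : K, (ub - algebraMap K (MvPolynomial (Fin d) K) t * vb) ∣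
        A.redQ i φ := by
      have e0 : vb = linForm ((0 : K) • u0 + (1 : K) • v0) := by
        rw [zero_smul, one_smul, zero_add]
      have e1 : ∀ t : K, ub - algebraMap K (MvPolynomial (Fin d) K) t * vb =
          linForm ((1 : K) • u0 + (-t) • v0) := by
        intro t
        rw [one_smul, linForm_add, linForm_smul, hub, hvb, C_neg, algebraMap_eq]
        ring
      have hrel : ∀ s t s' t' : K, (s ≠ 0 ∨ t ≠ 0) → s * t' ≠ s' * t →
          IsRelPrime (linForm (s • u0 + t • v0)) (linForm (s' • u0 + t' • v0)) := by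
        intro s t s' t' h1 h2
        refine isRelPrime_linForm (hst s t h1) fun r hr => h2 ?_
        have h3 : (s' - r * s) • u0 + (t' - r * t) • v0 = 0 := by
          rw [sub_smul, sub_smul, mul_smul, mul_smul]
          rw [smul_add] at hr
          linear_combination (exp := 1) hr
        obtain ⟨h4, h5⟩ := hind _ _ h3
        rw [sub_eq_zero] at h4 h5
        rw [h4, h5]; ring
      refine IsRelPrime.mul_dvd ?_ ?_ ?_
      · apply IsRelPrime.prod_right
        intro t _
        rw [e1, e0]
        exact hrel _ _ _ _ (Or.inr one_ne_zero) (by simp)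
      · rw [e0]; exact hdir 0 1 (Or.inr one_ne_zero)
      · apply Finset.prod_dvd_of_isRelPrime
        · intro t _ t' _ htt'
          simp only [Function.onFun]
          rw [e1, e1]
          refine hrel _ _ _ _ (Or.inl one_ne_zero) ?_
          rw [one_mul, one_mul]
          intro h
          exact htt' (neg_injective h).symm
        · intro t _
          rw [e1]
          exact hdir 1 (-t) (Or.inl one_ne_zero)
    obtain ⟨e', he'⟩ := hW
    rw [prod_sub_smul] at he'
    have hW0 : vb * ub ^ q - vb ^ q * ub ≠ 0 := by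
      intro h0
      rw [h0, zero_mul] at he'
      apply A.restQ_ne_zero i φ
      rw [A.restQ_eq, he', mul_zero]
    have hfin : e' * f = -(pullback (A.par i φ) Qo) := by
      apply mul_left_cancel₀ hW0
      rw [← mul_assoc, ← he', ← hf]
      ring
    have hQo : pullback (A.par i φ) Qo ∈ subspaceIdeal U := by
      have h1 : -(pullback (A.par i φ) Qo) ∈ subspaceIdeal U := by
        rw [← hfin]
        exact Ideal.mul_mem_left _ _ hfU
      rwa [neg_mem_iff] at h1
    simp only [Qo, map_prod, A.pullback_par'] at hQo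
    rw [hprime.prod_mem_iff] at hQo
    obtain ⟨m, hm, hm'⟩ := hQo
    simp only [T, Finset.mem_filter, Finset.mem_univ, true_and] at hm
    exact hm.2 hm'
  · -- no direction is a restricted member
    have h1 := hle (A.polyB_mem i φ)
    rw [polyB, hprime.prod_mem_iff] at h1
    obtain ⟨m, hm, hm'⟩ := h1
    simp only [Finset.mem_filter, Finset.mem_univ, true_and] at hm
    have h2 := A.pullback_par' i φ (A.α m)
    rw [par] at h2
    rw [h2] at hm'
    obtain ⟨s, t, hst'⟩ := hform _ hm'
    have hne : s ≠ 0 ∨ t ≠ 0 := by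
      by_contra hcon
      push Not at hcon
      apply A.resVec_ne_zero i φ hm.1
      rw [hst', hcon.1, hcon.2, zero_smul, zero_smul, add_zero]
    exact hnone s t hne ⟨m, hm.1, 1, one_ne_zero, by rw [hst', one_smul]⟩

end Arrangement

end Pool.Agent.ResIdeal
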