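import Pool.Agent.Hhelper83.ResQ1.Family
import Pool.Agent.Hhelper83.ResQ1.Finite

/-!
# The lower bound: every element of `I(B)` is a residue
-/

set_option autoImplicit false

open MvPolynomial

namespace Pool.Agent.ResIdeal

universe u

variable {K : Type u} [Field K]

namespace Gen

variable {n : ℕ} {I : Type} (D : Gen K n I)

/-! ## The polynomial `s ↦ f(x - s w)` -/

/-- `f(x - s w)` as a polynomial in `s`. -/
noncomputable def kpoly (f : MvPolynomial (Fin n) K) : Polynomial (MvPolynomial (Fin n) K) :=
  aeval (fun j => Polynomial.C (X j) - Polynomial.C (C (D.w j)) * Polynomial.X) f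

lemma kpoly_eval (f b : MvPolynomial (Fin n) K) :
    (D.kpoly f).eval b = aeval (fun j => X j - C (D.w j) * b) f := by
  induction f using MvPolynomial.induction_on with
  | C a =>
    simp only [kpoly, algHom_C, Polynomial.algebraMap_apply, Polynomial.eval_C]
  | add p q hp hq =>
    simp only [kpoly, map_add, Polynomial.eval_add] at hp hq ⊢
    rw [hp, hq]
  | mul_X p j hp =>
    simp only [kpoly, map_mul, aeval_X, Polynomial.eval_mul, Polynomial.eval_sub,
      Polynomial.eval_C, Polynomial.eval_X] at hp ⊢
    rw [hp]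

lemma kpoly_eval_zero (f : MvPolynomial (Fin n) K) : (D.kpoly f).eval 0 = f := by
  rw [kpoly_eval]
  simp

lemma dvd_kpoly (i : I) {f : MvPolynomial (Fin n) K} (hf : f ∈ subspaceIdeal (D.Xs i)) :
    linForm (D.L (D.st i)) - linForm (D.L i) ∣ (D.kpoly f).eval (linForm (D.L i)) := by
  rw [kpoly_eval]
  have h : subspaceIdeal (D.Xs i) ≤
      (Ideal.span {linForm (D.L (D.st i)) - linForm (D.L i)}).comap
        (aeval (fun j => X j - C (D.w j) * linForm (D.L i)) :
          MvPolynomial (Fin n) K →ₐ[K] MvPolynomial (Fin n) K) := by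
    rw [subspaceIdeal, Ideal.span_le]
    rintro _ ⟨c, hc, rfl⟩
    rw [SetLike.mem_coe, Ideal.mem_comap, Ideal.mem_span_singleton]
    have h1 : (aeval (fun j => X j - C (D.w j) * linForm (D.L i)) :
        MvPolynomial (Fin n) K →ₐ[K] MvPolynomial (Fin n) K) (linForm c) =
        linForm c - C (c ⬝ᵥ D.w) * linForm (D.L i) := by
      generalize linForm (D.L i) = b
      rw [linForm, map_sum, dotProduct, map_sum, Finset.sum_mul, ← Finset.sum_sub_distrib]
      refine Finset.sum_congr rfl fun j _ => ?_
      rw [map_mul, algHom_C, aeval_X, algebraMap_eq, C_mul]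
      ring
    rw [h1]
    obtain ⟨s, t, hst⟩ := D.span i c hc
    have h2 : c ⬝ᵥ D.w = s + t := by
      rw [hst, add_dotProduct, smul_dotProduct, smul_dotProduct, D.hw, D.hw, smul_eq_mul,
        smul_eq_mul, mul_one, mul_one]
    rw [h2, hst, linForm_add, linForm_smul, linForm_smul, C_add]
    exact ⟨C t, by ring⟩
  have h3 := h hf
  rwa [Ideal.mem_comap, Ideal.mem_span_singleton] at h3

/-! ## Partial fractions -/

variable [Fintype I] [DecidableEq I]

/-- Lagrange interpolation at the forms `L i`. -/
lemma partial_fractions (k : Polynomial (MvPolynomial (Fin n) K)) :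
    ∃ p : MvPolynomial (Fin n) K,
      algebraMap _ (FractionRing (MvPolynomial (Fin n) K))
        (k.eval 0 + p * ∏ i, linForm (D.L i)) =
      ∑ i, algebraMap _ (FractionRing (MvPolynomial (Fin n) K)) (k.eval (linForm (D.L i))) *
        ∏ j ∈ Finset.univ.erase i,
          (algebraMap _ (FractionRing (MvPolynomial (Fin n) K)) (linForm (D.L j)) /
          (algebraMap _ (FractionRing (MvPolynomial (Fin n) K)) (linForm (D.L j)) -
            algebraMap _ (FractionRing (MvPolynomial (Fin n) K)) (linForm (D.L i)))) := by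
  set R := MvPolynomial (Fin n) K
  set F := FractionRing R
  set φ : R →+* F := algebraMap R F with hφ
  have hinj : Function.Injective φ := IsFractionRing.injective R F
  let M : Polynomial R := ∏ i, (Polynomial.X - Polynomial.C (linForm (D.L i)))
  have hM : M.Monic := Polynomial.monic_prod_of_monic _ _ fun i _ => Polynomial.monic_X_sub_C _
  let r := k %ₘ M
  have hk : r + M * (k /ₘ M) = k := Polynomial.modByMonic_add_div k M
  have hMeval : ∀ i, M.eval (linForm (D.L i)) = 0 := by
    intro i
    rw [Polynomial.eval_prod]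
    exact Finset.prod_eq_zero (Finset.mem_univ i) (by simp)
  have hreval : ∀ i, r.eval (linForm (D.L i)) = k.eval (linForm (D.L i)) := by
    intro i
    conv_rhs => rw [← hk]
    rw [Polynomial.eval_add, Polynomial.eval_mul, hMeval, zero_mul, add_zero]
  have hM0 : M.eval 0 = (-1) ^ Fintype.card I * ∏ i, linForm (D.L i) := by
    rw [Polynomial.eval_prod]
    have : ∀ i, (Polynomial.X - Polynomial.C (linForm (D.L i))).eval (0 : R) =
        -1 * linForm (D.L i) := by
      intro i
      simp
    rw [Finset.prod_congr rfl fun i _ => this i, Finset.prod_mul_distrib, Finset.prod_const,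
      Finset.card_univ]
  have hr0 : r.eval 0 = k.eval 0 +
      (-(-1) ^ Fintype.card I * (k /ₘ M).eval 0) * ∏ i, linForm (D.L i) := by
    have := congrArg (Polynomial.eval 0) hk
    rw [Polynomial.eval_add, Polynomial.eval_mul, hM0] at this
    linear_combination this
  refine ⟨-(-1) ^ Fintype.card I * (k /ₘ M).eval 0, ?_⟩
  rw [← hr0]
  -- Lagrange interpolation for `r`
  have hvinj : Set.InjOn (fun i => φ (linForm (D.L i))) (Finset.univ : Finset I) := by
    intro i _ j _ hij
    exact D.inj (linForm_injective (hinj hij))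
  have hdeg : (r.map φ).degree < (Finset.univ : Finset I).card := by
    have h1 : r.degree < M.degree := Polynomial.degree_modByMonic_lt k hM
    have h2 : M.degree = (Finset.univ : Finset I).card := by
      rw [Polynomial.degree_prod_of_monic _ _ fun i _ => Polynomial.monic_X_sub_C _]
      rw [Finset.sum_congr rfl fun i _ => Polynomial.degree_X_sub_C (linForm (D.L i)),
        Finset.sum_const, nsmul_eq_mul, mul_one]
    exact lt_of_le_of_lt Polynomial.degree_map_le (h2 ▸ h1)
  have hlag := Lagrange.eq_interpolate hvinj hdeg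
  have h0 : φ (r.eval 0) = (r.map φ).eval 0 := by
    rw [Polynomial.eval_map, ← map_zero φ, Polynomial.eval₂_at_apply]
  rw [h0]
  conv_lhs => rw [hlag]
  rw [Lagrange.interpolate_apply, Polynomial.eval_finsetSum]
  refine Finset.sum_congr rfl fun i _ => ?_
  rw [Polynomial.eval_mul, Polynomial.eval_C, Polynomial.eval_map, Polynomial.eval₂_at_apply,
    hreval]
  congr 1
  rw [Lagrange.basis, Polynomial.eval_prod]
  refine Finset.prod_congr rfl fun j hj => ?_
  have hne : φ (linForm (D.L j)) - φ (linForm (D.L i)) ≠ 0 := by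
    rw [_root_.sub_ne_zero]
    intro h
    exact (Finset.ne_of_mem_erase hj) (D.inj (linForm_injective (hinj h)))
  rw [Lagrange.basisDivisor]
  simp only [Polynomial.eval_mul, Polynomial.eval_C, Polynomial.eval_sub, Polynomial.eval_X,
    zero_sub]
  have hne' : φ (linForm (D.L i)) - φ (linForm (D.L j)) ≠ 0 := by
    rw [← neg_ne_zero, neg_sub]
    exact hne
  rw [div_eq_mul_inv, mul_neg, mul_comm, ← mul_neg]
  congr 1
  rw [← inv_neg, neg_sub]

end Gen

end Pool.Agent.ResIdeal
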