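import Pool.Agent.Hhelper83.ResQ1.Lower

/-!
# The lower bound, II: the logarithmic form attached to `f`
-/

set_option autoImplicit false

open MvPolynomial

namespace Pool.Agent.ResIdeal

universe u

variable {K : Type u} [Field K]

namespace Gen

variable {n : ℕ} {I : Type} (D : Gen K n I)

/-- the form `L_i` in the big space -/
noncomputable def l (i : I) : MvPolynomial (Fin (n + 1)) K := linForm (Fin.cons 0 (D.L i))

/-- the form `L_i - z` in the big space -/
noncomputable def lz (i : I) : MvPolynomial (Fin (n + 1)) K := linForm (Fin.cons (-1) (D.L i))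

lemma l_eq (i : I) : D.l i = rename Fin.succ (linForm (D.L i)) := by
  rw [l, linForm_cons, C_0, zero_mul, zero_add]

lemma lz_eq (i : I) : D.lz i = D.l i - X 0 := by
  rw [l_eq, lz, linForm_cons, C_neg, C_1]
  ring

lemma linForm_cons_sub (i j : I) :
    linForm (Fin.cons 0 (D.L j - D.L i) : Fin (n + 1) → K) = D.l j - D.l i := by
  rw [l_eq, l_eq, linForm_cons, C_0, zero_mul, zero_add, linForm_sub, map_sub]

lemma linForm_zeta : linForm (Fin.cons 1 0 : Fin (n + 1) → K) = X 0 := by
  rw [linForm_cons, C_1, one_mul]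
  simp [linForm]

variable [Fintype I] [DecidableEq I]

/-- the product of all members except `z` -/
noncomputable def Q' : MvPolynomial (Fin (n + 1)) K := ∏ x : I ⊕ I ⊕ D.T, linForm (D.vec (some x))

/-- the product of the members which depend on `i` -/
noncomputable def G (i : I) : MvPolynomial (Fin (n + 1)) K :=
  D.l i * (D.lz i * ∏ m ∈ Finset.univ.erase i, (D.l m - D.l i))

omit [DecidableEq I] in
lemma member_dvd (x : I ⊕ I ⊕ D.T) : linForm (D.vec (some x)) ∣ D.Q' :=
  Finset.dvd_prod_of_mem (fun x => linForm (D.vec (some x))) (Finset.mem_univ x)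

omit [DecidableEq I] in
lemma sub_dvd_Q' {i m : I} (hm : m ≠ i) (hst : m ≠ D.st i) : D.l m - D.l i ∣ D.Q' := by
  rcases lt_trichotomy (Fintype.equivFin I i) (Fintype.equivFin I m) with h | h | h
  · have h1 := D.member_dvd (Sum.inr (Sum.inr ⟨(i, m), h, hst⟩))
    change linForm (Fin.cons 0 (D.L m - D.L i) : Fin (n + 1) → K) ∣ _ at h1
    rwa [linForm_cons_sub] at h1
  · exact absurd ((Fintype.equivFin I).injective h).symm hm
  · have hst' : i ≠ D.st m := by
      intro h'
      apply hst
      rw [h', D.st_st]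
    have h1 := D.member_dvd (Sum.inr (Sum.inr ⟨(m, i), h, hst'⟩))
    change linForm (Fin.cons 0 (D.L i - D.L m) : Fin (n + 1) → K) ∣ _ at h1
    rw [linForm_cons_sub] at h1
    rw [← neg_sub]
    exact (neg_dvd).mpr h1

lemma ne_smul_symm {ℓ : ℕ} {c d : Fin ℓ → K} (hd : d ≠ 0) (h : ∀ t : K, c ≠ t • d) :
    ∀ t : K, d ≠ t • c := by
  intro t ht
  have ht0 : t ≠ 0 := by
    rintro rfl
    rw [zero_smul] at ht
    exact hd ht
  apply h t⁻¹
  rw [ht, smul_smul, inv_mul_cancel₀ ht0, one_smul]

/-- the factors of `G i` are pairwise relatively prime, and each divides the product. -/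
lemma G_dvd (i : I) {f : MvPolynomial (Fin n) K} (hf : f ∈ subspaceIdeal (D.Xs i)) :
    D.G i ∣ D.Q' * rename Fin.succ ((D.kpoly f).eval (linForm (D.L i))) := by
  have hne0 : (Fin.cons 0 (D.L i) : Fin (n + 1) → K) ≠ 0 := D.vec_ne_zero (some (Sum.inl i))
  have hne1 : (Fin.cons (-1) (D.L i) : Fin (n + 1) → K) ≠ 0 :=
    D.vec_ne_zero (some (Sum.inr (Sum.inl i)))
  have hrel : ∀ m ∈ Finset.univ.erase i, IsRelPrime (D.l i) (D.l m - D.l i) := by
    intro m hm
    rw [← linForm_cons_sub]
    refine isRelPrime_linForm hne0 fun t ht => ?_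
    rw [cons_smul', cons_eq_iff] at ht
    exact D.sub_ne_smul_L (Finset.ne_of_mem_erase hm).symm i t ht.2
  have hrelz : ∀ m ∈ Finset.univ.erase i, IsRelPrime (D.lz i) (D.l m - D.l i) := by
    intro m hm
    rw [← linForm_cons_sub]
    refine isRelPrime_linForm hne1 fun t ht => ?_
    rw [cons_smul', cons_eq_iff] at ht
    exact D.sub_ne_smul_L (Finset.ne_of_mem_erase hm).symm i t ht.2
  have hll : IsRelPrime (D.l i) (D.lz i) := by
    refine isRelPrime_linForm hne0 fun t ht => ?_
    rw [cons_smul', cons_eq_iff, mul_zero, neg_eq_zero] at ht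
    exact one_ne_zero ht.1
  have hprod : ∏ m ∈ Finset.univ.erase i, (D.l m - D.l i) ∣
      D.Q' * rename Fin.succ ((D.kpoly f).eval (linForm (D.L i))) := by
    apply Finset.prod_dvd_of_isRelPrime
    · intro m hm m' hm' hmm
      have hm1 : m ≠ i := Finset.ne_of_mem_erase hm
      have hm2 : m' ≠ i := Finset.ne_of_mem_erase hm'
      change IsRelPrime (D.l m - D.l i) (D.l m' - D.l i)
      rw [← linForm_cons_sub, ← linForm_cons_sub]
      have hne : ∀ m, m ≠ i → (Fin.cons 0 (D.L m - D.L i) : Fin (n + 1) → K) ≠ 0 := by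
        intro m hm h0
        have h00 : (0 : Fin (n + 1) → K) = Fin.cons 0 0 := by
          funext j
          refine Fin.cases ?_ (fun j => ?_) j <;> simp
        rw [h00, cons_eq_iff] at h0
        exact D.sub_ne_zero hm.symm h0.2
      have key : ∀ m m', m ≠ i → m' ≠ i → m ≠ m' → m ≠ D.st i → ∀ t : K,
          (Fin.cons 0 (D.L m' - D.L i) : Fin (n + 1) → K) ≠
            t • (Fin.cons 0 (D.L m - D.L i) : Fin (n + 1) → K) := by
        intro m m' h1 h2 h3 h4 t ht
        rw [cons_smul', cons_eq_iff] at ht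
        refine D.npar i m i m' h1.symm h4 h2.symm ?_ ?_ t ht.2
        · rintro ⟨_, h⟩
          exact h3 h.symm
        · rintro ⟨h, _⟩
          exact h1 h.symm
      by_cases h : m = D.st i
      · have h' : m' ≠ D.st i := fun h'' => hmm (h.trans h''.symm)
        exact isRelPrime_linForm (hne m hm1)
          (ne_smul_symm (hne m' hm2) (key m' m hm2 hm1 (Ne.symm hmm) h'))
      · exact isRelPrime_linForm (hne m hm1) (key m m' hm1 hm2 hmm h)
    · intro m hm
      have hm1 : m ≠ i := Finset.ne_of_mem_erase hm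
      by_cases h : m = D.st i
      · refine Dvd.dvd.mul_left ?_ _
        rw [l_eq, l_eq, ← map_sub, h]
        exact map_dvd _ (D.dvd_kpoly i hf)
      · exact (D.sub_dvd_Q' hm1 h).mul_right _
  have h1 : D.l i ∣ D.Q' := D.member_dvd (Sum.inl i)
  have h2 : D.lz i ∣ D.Q' := D.member_dvd (Sum.inr (Sum.inl i))
  rw [G]
  refine IsRelPrime.mul_dvd ?_ (h1.mul_right _) (IsRelPrime.mul_dvd ?_ (h2.mul_right _) hprod)
  · exact IsRelPrime.mul_right hll (IsRelPrime.prod_right hrel)
  · exact IsRelPrime.prod_right hrelz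

/-- membership of `x` among the members not depending on `i` -/
def Away (i : I) : I ⊕ I ⊕ D.T → Prop
  | Sum.inl j => j ≠ i
  | Sum.inr (Sum.inl j) => j ≠ i
  | Sum.inr (Sum.inr p) => p.1.1 ≠ i ∧ p.1.2 ≠ i

lemma not_dvd_G {i : I} {x : I ⊕ I ⊕ D.T} (hx : D.Away i x) :
    ¬ linForm (D.vec (some x)) ∣ D.G i := by
  have hp : Prime (linForm (D.vec (some x))) := prime_linForm (D.vec_ne_zero _)
  rw [G, hp.dvd_mul, hp.dvd_mul, Prime.dvd_finsetProd_iff hp]
  rintro (h | h | ⟨m, hm, h⟩)
  · obtain ⟨t, ht⟩ := exists_smul_of_linForm_dvd h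
    refine D.vec_npar (some x) (some (Sum.inl i)) ?_ t ht
    rintro h'
    rw [Option.some_inj] at h'
    subst h'
    exact hx rfl
  · obtain ⟨t, ht⟩ := exists_smul_of_linForm_dvd h
    refine D.vec_npar (some x) (some (Sum.inr (Sum.inl i))) ?_ t ht
    rintro h'
    rw [Option.some_inj] at h'
    subst h'
    exact hx rfl
  · have hm1 : m ≠ i := Finset.ne_of_mem_erase hm
    rw [← linForm_cons_sub] at h
    obtain ⟨t, ht⟩ := exists_smul_of_linForm_dvd h
    rcases x with j | j | p
    · rw [vec, cons_smul', cons_eq_iff] at ht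
      exact D.sub_ne_smul_L hm1.symm j t ht.2
    · rw [vec, cons_smul', cons_eq_iff] at ht
      exact D.sub_ne_smul_L hm1.symm j t ht.2
    · rw [vec, cons_smul', cons_eq_iff] at ht
      refine D.npar p.1.1 p.1.2 i m (D.T_ne p) p.2.2 hm1.symm ?_ ?_ t ht.2
      · rintro ⟨h1, _⟩
        exact hx.1 h1.symm
      · rintro ⟨h1, _⟩
        exact hx.2 h1.symm

lemma dvd_H {i : I} {x : I ⊕ I ⊕ D.T} (hx : D.Away i x) {H k : MvPolynomial (Fin (n + 1)) K}
    (hH : D.Q' * k = D.G i * H) : linForm (D.vec (some x)) ∣ H := by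
  have hp : Prime (linForm (D.vec (some x))) := prime_linForm (D.vec_ne_zero _)
  have h : linForm (D.vec (some x)) ∣ D.G i * H := by
    rw [← hH]
    exact (D.member_dvd x).mul_right _
  exact (hp.dvd_or_dvd h).resolve_left (D.not_dvd_G hx)

end Gen

end Pool.Agent.ResIdeal
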