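import Pool.Agent.Hhelper83.ResQ1.Lower2

/-!
# The lower bound, III: membership in `Ω¹(A)`
-/

set_option autoImplicit false

open MvPolynomial

namespace Pool.Agent.ResIdeal

universe u

variable {K : Type u} [Field K]

namespace Gen

variable {n : ℕ} {I : Type} (D : Gen K n I) [Fintype I] [DecidableEq I]

/-- `G p` without the factor `l q - l p`. -/
noncomputable def Bp (p q : I) (s : MvPolynomial (Fin (n + 1)) K) : MvPolynomial (Fin (n + 1)) K :=
  s * ((s - X 0) * ∏ m ∈ (Finset.univ.erase p).erase q, (D.l m - s))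

omit [DecidableEq I] in
lemma T_sub_ne (p : D.T) : (Fin.cons 0 (D.L p.1.2 - D.L p.1.1) : Fin (n + 1) → K) ≠ 0 :=
  D.vec_ne_zero (some (Sum.inr (Sum.inr p)))

lemma Bp_sub_dvd (p q : I) (s t : MvPolynomial (Fin (n + 1)) K) :
    s - t ∣ D.Bp p q s - D.Bp p q t := by
  let P : Polynomial (MvPolynomial (Fin (n + 1)) K) := Polynomial.X *
    ((Polynomial.X - Polynomial.C (X 0)) *
      ∏ m ∈ (Finset.univ.erase p).erase q, (Polynomial.C (D.l m) - Polynomial.X))
  have h : ∀ s, D.Bp p q s = P.eval s := by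
    intro s
    simp only [P, Bp, Polynomial.eval_mul, Polynomial.eval_sub, Polynomial.eval_X,
      Polynomial.eval_C, Polynomial.eval_prod]
  rw [h, h]
  exact Polynomial.sub_dvd_eval_sub s t P

lemma G_eq_Bp {p q : I} (h : p ≠ q) : D.G p = (D.l q - D.l p) * D.Bp p q (D.l p) := by
  have hq : q ∈ Finset.univ.erase p := Finset.mem_erase.mpr ⟨h.symm, Finset.mem_univ _⟩
  rw [G, ← Finset.mul_prod_erase _ _ hq, Bp, lz_eq]
  ring

lemma not_dvd_Bp (p : D.T) :
    ¬ (D.l p.1.2 - D.l p.1.1) ∣ D.Bp p.1.1 p.1.2 (D.l p.1.1) := by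
  rw [← linForm_cons_sub]
  have hp : Prime (linForm (Fin.cons 0 (D.L p.1.2 - D.L p.1.1) : Fin (n + 1) → K)) :=
    prime_linForm (D.T_sub_ne p)
  rw [Bp, ← lz_eq, hp.dvd_mul, hp.dvd_mul, Prime.dvd_finsetProd_iff hp]
  rintro (h | h | ⟨m, hm, h⟩)
  · obtain ⟨t, ht⟩ := exists_smul_of_linForm_dvd h
    rw [cons_smul', cons_eq_iff] at ht
    exact D.L_ne_smul_sub _ _ _ t ht.2
  · obtain ⟨t, ht⟩ := exists_smul_of_linForm_dvd h
    rw [cons_smul', cons_eq_iff] at ht
    exact D.L_ne_smul_sub _ _ _ t ht.2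
  · rw [← linForm_cons_sub] at h
    obtain ⟨t, ht⟩ := exists_smul_of_linForm_dvd h
    rw [cons_smul', cons_eq_iff] at ht
    rw [Finset.mem_erase, Finset.mem_erase] at hm
    refine D.npar p.1.1 p.1.2 p.1.1 m (D.T_ne p) p.2.2 hm.2.1.symm ?_ ?_ t ht.2
    · rintro ⟨_, h1⟩
      exact hm.1 h1
    · rintro ⟨h1, _⟩
      exact D.T_ne p h1

lemma dvd_add_H (p : D.T) {k : Polynomial (MvPolynomial (Fin n) K)}
    {H : I → MvPolynomial (Fin (n + 1)) K}
    (hH : ∀ i, D.Q' * rename Fin.succ (k.eval (linForm (D.L i))) = D.G i * H i) :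
    D.l p.1.2 - D.l p.1.1 ∣ H p.1.1 + H p.1.2 := by
  have hne := D.T_ne p
  have hprime : Prime (D.l p.1.2 - D.l p.1.1) := by
    rw [← linForm_cons_sub]
    exact prime_linForm (D.T_sub_ne p)
  have hmem : D.l p.1.2 - D.l p.1.1 ∣ D.Q' := D.sub_dvd_Q' hne.symm p.2.2
  obtain ⟨Q2, hQ2⟩ := hmem
  have h1 := hH p.1.1
  have h2 := hH p.1.2
  rw [D.G_eq_Bp hne, hQ2, mul_assoc, mul_assoc] at h1
  have h1' := mul_left_cancel₀ hprime.ne_zero h1
  have hB : D.Bp p.1.2 p.1.1 (D.l p.1.2) = D.Bp p.1.1 p.1.2 (D.l p.1.2) := by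
    rw [Bp, Bp, Finset.erase_right_comm]
  rw [D.G_eq_Bp hne.symm, hQ2, hB] at h2
  have h2' : Q2 * rename Fin.succ (k.eval (linForm (D.L p.1.2))) =
      - (D.Bp p.1.1 p.1.2 (D.l p.1.2) * H p.1.2) := by
    apply mul_left_cancel₀ hprime.ne_zero
    linear_combination h2
  have hk : D.l p.1.2 - D.l p.1.1 ∣ rename Fin.succ (k.eval (linForm (D.L p.1.2))) -
      rename Fin.succ (k.eval (linForm (D.L p.1.1))) := by
    rw [← map_sub, l_eq, l_eq, ← map_sub]
    exact map_dvd _ (Polynomial.sub_dvd_eval_sub _ _ _)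
  have hBd := D.Bp_sub_dvd p.1.1 p.1.2 (D.l p.1.2) (D.l p.1.1)
  have key : D.l p.1.2 - D.l p.1.1 ∣ D.Bp p.1.1 p.1.2 (D.l p.1.1) * (H p.1.1 + H p.1.2) := by
    have e : D.Bp p.1.1 p.1.2 (D.l p.1.1) * (H p.1.1 + H p.1.2) =
        -(Q2 * (rename Fin.succ (k.eval (linForm (D.L p.1.2))) -
          rename Fin.succ (k.eval (linForm (D.L p.1.1))))) -
        (D.Bp p.1.1 p.1.2 (D.l p.1.2) - D.Bp p.1.1 p.1.2 (D.l p.1.1)) * H p.1.2 := by
      linear_combination -h1' + h2'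
    rw [e]
    exact dvd_sub ((dvd_neg).mpr (hk.mul_left _)) (hBd.mul_right _)
  exact (hprime.dvd_or_dvd key).resolve_left (D.not_dvd_Bp p)

/-- the numerators of the logarithmic form -/
noncomputable def num (H : I → MvPolynomial (Fin (n + 1)) K) (k : Fin (n + 1)) :
    MvPolynomial (Fin (n + 1)) K :=
  ∑ i, H i * (D.l i * C ((Fin.cons 1 0 : Fin (n + 1) → K) k) -
    X 0 * C ((Fin.cons 0 (D.L i) : Fin (n + 1) → K) k))

lemma num_mem (k : Polynomial (MvPolynomial (Fin n) K))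
    {H : I → MvPolynomial (Fin (n + 1)) K}
    (hH : ∀ i, D.Q' * rename Fin.succ (k.eval (linForm (D.L i))) = D.G i * H i) :
    D.num H ∈ D.arr.logForm := by
  intro m a b
  obtain ⟨x, rfl⟩ := D.idx_surj m
  rw [arr_idx]
  have hexp : ∀ c : Fin (n + 1) → K, D.num H a * C (c b) - D.num H b * C (c a) =
      ∑ i, H i * ((D.l i * C ((Fin.cons 1 0 : Fin (n + 1) → K) a) -
        X 0 * C ((Fin.cons 0 (D.L i) : Fin (n + 1) → K) a)) * C (c b) -
        (D.l i * C ((Fin.cons 1 0 : Fin (n + 1) → K) b) -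
        X 0 * C ((Fin.cons 0 (D.L i) : Fin (n + 1) → K) b)) * C (c a)) := by
    intro c
    rw [num, num, Finset.sum_mul, Finset.sum_mul, ← Finset.sum_sub_distrib]
    refine Finset.sum_congr rfl fun i _ => ?_
    ring
  rw [hexp]
  rcases x with _ | p | p | p
  · refine Finset.dvd_sum fun i _ => ?_
    rw [vec, linForm_zeta]
    refine Dvd.dvd.mul_left ?_ _
    exact ⟨-C ((Fin.cons 0 (D.L i) : Fin (n + 1) → K) a) * C ((Fin.cons 1 0 : Fin (n + 1) → K) b) +
      C ((Fin.cons 0 (D.L i) : Fin (n + 1) → K) b) * C ((Fin.cons 1 0 : Fin (n + 1) → K) a),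
      by ring⟩
  · refine Finset.dvd_sum fun i _ => ?_
    by_cases hi : p = i
    · subst hi
      refine Dvd.dvd.mul_left ?_ _
      change D.l p ∣ _
      rw [vec]
      exact ⟨C ((Fin.cons 1 0 : Fin (n + 1) → K) a) * C ((Fin.cons 0 (D.L p) : Fin (n + 1) → K) b) -
        C ((Fin.cons 1 0 : Fin (n + 1) → K) b) * C ((Fin.cons 0 (D.L p) : Fin (n + 1) → K) a),
        by ring⟩
    · exact Dvd.dvd.mul_right (D.dvd_H (x := Sum.inl p) hi (hH i)) _
  · refine Finset.dvd_sum fun i _ => ?_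
    by_cases hi : p = i
    · subst hi
      refine Dvd.dvd.mul_left ?_ _
      change D.lz p ∣ _
      have hv : D.vec (some (Sum.inr (Sum.inl p))) = (Fin.cons 0 (D.L p) : Fin (n + 1) → K) -
          Fin.cons 1 0 := by
        rw [vec]
        funext j
        refine Fin.cases ?_ (fun j => ?_) j <;> simp
      rw [hv, lz_eq, Pi.sub_apply, Pi.sub_apply, C_sub, C_sub]
      exact ⟨C ((Fin.cons 1 0 : Fin (n + 1) → K) a) * C ((Fin.cons 0 (D.L p) : Fin (n + 1) → K) b) -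
        C ((Fin.cons 1 0 : Fin (n + 1) → K) b) * C ((Fin.cons 0 (D.L p) : Fin (n + 1) → K) a),
        by ring⟩
    · exact Dvd.dvd.mul_right (D.dvd_H (x := Sum.inr (Sum.inl p)) hi (hH i)) _
  · have hne := D.T_ne p
    rw [← Finset.add_sum_erase _ _ (Finset.mem_univ p.1.1),
      ← Finset.add_sum_erase _ _ (Finset.mem_erase.mpr ⟨hne.symm, Finset.mem_univ p.1.2⟩),
      ← add_assoc]
    refine dvd_add ?_ (Finset.dvd_sum fun i hi => ?_)
    · have hv : D.vec (some (Sum.inr (Sum.inr p))) =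
          (Fin.cons 0 (D.L p.1.2) : Fin (n + 1) → K) - Fin.cons 0 (D.L p.1.1) := by
        rw [vec]
        funext j
        refine Fin.cases ?_ (fun j => ?_) j <;> simp
      have hvl : linForm (D.vec (some (Sum.inr (Sum.inr p)))) = D.l p.1.2 - D.l p.1.1 := by
        rw [vec, linForm_cons_sub]
      rw [hvl, hv, Pi.sub_apply, Pi.sub_apply, C_sub, C_sub]
      obtain ⟨E, hE⟩ := D.dvd_add_H p hH
      have hE' : H p.1.1 = (D.l p.1.2 - D.l p.1.1) * E - H p.1.2 := by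
        linear_combination hE
      rw [hE']
      generalize (Fin.cons 1 0 : Fin (n + 1) → K) = ζ
      generalize (Fin.cons 0 (D.L p.1.1) : Fin (n + 1) → K) = v
      generalize (Fin.cons 0 (D.L p.1.2) : Fin (n + 1) → K) = w
      refine ⟨E * ((D.l p.1.1 * C (ζ a) - X 0 * C (v a)) * (C (w b) - C (v b)) -
        (D.l p.1.1 * C (ζ b) - X 0 * C (v b)) * (C (w a) - C (v a))) +
        H p.1.2 * (C (ζ a) * (C (w b) - C (v b)) - C (ζ b) * (C (w a) - C (v a))), ?_⟩
      ring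
    · rw [Finset.mem_erase, Finset.mem_erase] at hi
      exact Dvd.dvd.mul_right (D.dvd_H (x := Sum.inr (Sum.inr p))
        ⟨hi.2.1.symm, hi.1.symm⟩ (hH i)) _

end Gen

end Pool.Agent.ResIdeal
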