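import Pool.Agent.Hhelper83.ResQ1.Lower3

/-!
# The lower bound, IV: the residue
-/

set_option autoImplicit false

open MvPolynomial

namespace Pool.Agent.ResIdeal

universe u

variable {K : Type u} [Field K]

namespace Gen

variable {n : ℕ} {I : Type} (D : Gen K n I) [Fintype I] [DecidableEq I]

/-- `∏ a_i` -/
noncomputable def b : MvPolynomial (Fin n) K := ∏ i, linForm (D.L i)

/-- `∏ (a_q - a_p)` over the pairs in `T` -/
noncomputable def N : MvPolynomial (Fin n) K := ∏ p : D.T, linForm (D.L p.1.2 - D.L p.1.1)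

omit [DecidableEq I] in
lemma b_ne_zero : D.b ≠ 0 := by
  rw [b, Finset.prod_ne_zero_iff]
  exact fun i _ => linForm_ne_zero (D.L_ne_zero i)

omit [DecidableEq I] in
lemma N_ne_zero : D.N ≠ 0 := by
  rw [N, Finset.prod_ne_zero_iff]
  exact fun p _ => linForm_ne_zero (D.sub_ne_zero (D.T_ne p))

omit [DecidableEq I] in
lemma pullback_l (i : I) : pullback (D.arr.par (D.idx none) D.chart) (D.l i) =
    linForm (D.L i) := by
  rw [l_eq, pullback_rename]

omit [DecidableEq I] in
lemma pullback_lz (i : I) : pullback (D.arr.par (D.idx none) D.chart) (D.lz i) =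
    linForm (D.L i) := by
  rw [lz_eq, map_sub, pullback_X0, sub_zero, pullback_l]

omit [DecidableEq I] in
lemma pullback_Q' : pullback (D.arr.par (D.idx none) D.chart) D.Q' = D.b * (D.b * D.N) := by
  rw [Q', map_prod, Fintype.prod_sum_type, Fintype.prod_sum_type, b, N]
  congr 1
  · exact Finset.prod_congr rfl fun i _ => D.pullback_l i
  · congr 1
    · exact Finset.prod_congr rfl fun i _ => D.pullback_lz i
    · refine Finset.prod_congr rfl fun p _ => ?_
      rw [Arrangement.pullback_par', vec, resVec_cons]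

omit [DecidableEq I] in
lemma restQ_eq' : D.arr.restQ (D.idx none) D.chart = D.b * (D.b * D.N) := by
  rw [← pullback_Q', Q', map_prod, Arrangement.restQ]
  symm
  refine Finset.prod_bij (fun x _ => D.idx (some x)) ?_ ?_ ?_ ?_
  · intro x _
    rw [Finset.mem_filter]
    refine ⟨Finset.mem_univ _, ?_⟩
    rw [ne_eq, idx_inj]
    simp
  · intro x _ y _ h
    rw [idx_inj, Option.some_inj] at h
    exact h
  · intro m hm
    obtain ⟨x, rfl⟩ := D.idx_surj m
    rw [Finset.mem_filter] at hm
    rcases x with _ | x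
    · exact absurd rfl hm.2
    · exact ⟨x, Finset.mem_univ _, rfl⟩
  · intro x _
    rw [arr_idx]

omit [DecidableEq I] in
lemma bN_dvd_redQ : D.b * D.N ∣ D.arr.redQ (D.idx none) D.chart := by
  have h : D.b * D.N = ∏ x : I ⊕ D.T, (Sum.elim (fun i => linForm (D.L i))
      (fun p : D.T => linForm (D.L p.1.2 - D.L p.1.1)) x : MvPolynomial (Fin n) K) := by
    rw [Fintype.prod_sum_type]
    rfl
  rw [h]
  apply Finset.prod_dvd_of_isRelPrime
  · intro x _ y _ hxy
    rcases x with i | p <;> rcases y with j | q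
    · change IsRelPrime (linForm (D.L i)) (linForm (D.L j))
      exact isRelPrime_linForm (D.L_ne_zero i) fun t =>
        D.L_ne_smul_L (fun h => hxy (by rw [h])) t
    · change IsRelPrime (linForm (D.L i)) (linForm (D.L q.1.2 - D.L q.1.1))
      exact isRelPrime_linForm (D.L_ne_zero i) fun t => D.sub_ne_smul_L (D.T_ne q) i t
    · change IsRelPrime (linForm (D.L p.1.2 - D.L p.1.1)) (linForm (D.L j))
      exact isRelPrime_linForm (D.sub_ne_zero (D.T_ne p)) fun t => D.L_ne_smul_sub _ _ _ t
    · change IsRelPrime (linForm (D.L p.1.2 - D.L p.1.1)) (linForm (D.L q.1.2 - D.L q.1.1))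
      refine isRelPrime_linForm (D.sub_ne_zero (D.T_ne p)) fun t ht => ?_
      refine D.npar _ _ _ _ (D.T_ne p) p.2.2 (D.T_ne q) ?_ ?_ t ht
      · rintro ⟨h1, h2⟩
        apply hxy
        congr 1
        exact Subtype.ext (Prod.ext h1.symm h2.symm)
      · rintro ⟨h1, h2⟩
        have h3 := p.2.1
        have h4 := q.2.1
        rw [h1, h2] at h4
        exact lt_asymm h3 h4
  · intro x _
    rcases x with i | p
    · have h1 := D.arr.dvd_redQ (D.idx none) D.chart (j := D.idx (some (Sum.inl i)))
        (by rw [ne_eq, idx_inj]; simp)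
      rwa [arr_idx, vec, resVec_cons] at h1
    · have h1 := D.arr.dvd_redQ (D.idx none) D.chart (j := D.idx (some (Sum.inr (Sum.inr p))))
        (by rw [ne_eq, idx_inj]; simp)
      rwa [arr_idx, vec, resVec_cons] at h1

omit [DecidableEq I] in
lemma pullback_num (H : I → MvPolynomial (Fin (n + 1)) K) (k : Fin (n + 1)) :
    pullback (D.arr.par (D.idx none) D.chart) (D.num H k) =
      C (D.arr.α (D.idx none) k) *
        ∑ i, pullback (D.arr.par (D.idx none) D.chart) (H i) * linForm (D.L i) := by
  have hC : ∀ t : K, pullback (D.arr.par (D.idx none) D.chart) (C t) = C t := fun t =>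
    (pullback (D.arr.par (D.idx none) D.chart)).commutes t
  rw [num, map_sum, Finset.mul_sum, arr_idx, vec]
  refine Finset.sum_congr rfl fun i _ => ?_
  rw [map_mul, map_sub, map_mul, map_mul, pullback_X0, hC, zero_mul, sub_zero, pullback_l]
  ring

/-- The residue computation. -/
lemma exists_gamma_eq (k : Polynomial (MvPolynomial (Fin n) K))
    {H : I → MvPolynomial (Fin (n + 1)) K}
    (hH : ∀ i, D.Q' * rename Fin.succ (k.eval (linForm (D.L i))) = D.G i * H i) :
    ∃ p : MvPolynomial (Fin n) K,
      ∑ i, pullback (D.arr.par (D.idx none) D.chart) (H i) * linForm (D.L i) =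
        D.b * D.N * (k.eval 0 + p * D.b) := by
  obtain ⟨p, hp⟩ := D.partial_fractions k
  refine ⟨p, ?_⟩
  set F := FractionRing (MvPolynomial (Fin n) K)
  apply IsFractionRing.injective (MvPolynomial (Fin n) K) F
  rw [map_mul, b, hp, Finset.mul_sum, map_sum]
  refine Finset.sum_congr rfl fun i _ => ?_
  have h1 := congrArg (pullback (D.arr.par (D.idx none) D.chart)) (hH i)
  rw [map_mul, map_mul, pullback_Q', pullback_rename, G, map_mul, map_mul, map_prod, pullback_l,
    pullback_lz] at h1
  have h2 : ∀ m, pullback (D.arr.par (D.idx none) D.chart) (D.l m - D.l i) =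
      linForm (D.L m) - linForm (D.L i) := by
    intro m
    rw [map_sub, pullback_l, pullback_l]
  rw [Finset.prod_congr rfl fun m _ => h2 m] at h1
  have h3 := congrArg (algebraMap (MvPolynomial (Fin n) K) F) h1
  have hb : algebraMap (MvPolynomial (Fin n) K) F D.b =
      algebraMap (MvPolynomial (Fin n) K) F (linForm (D.L i)) *
        ∏ j ∈ Finset.univ.erase i, algebraMap (MvPolynomial (Fin n) K) F (linForm (D.L j)) := by
    rw [b, ← Finset.mul_prod_erase _ _ (Finset.mem_univ i), map_mul, map_prod]
  rw [map_mul, map_mul, map_mul, map_mul, map_mul, map_mul, map_prod] at h3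
  rw [Finset.prod_div_distrib, ← b, map_mul, map_mul]
  set A := algebraMap (MvPolynomial (Fin n) K) F with hA
  have hinj : Function.Injective A := IsFractionRing.injective _ _
  have hP : ∏ j ∈ Finset.univ.erase i, (A (linForm (D.L j)) - A (linForm (D.L i))) ≠ 0 := by
    rw [Finset.prod_ne_zero_iff]
    intro j hj
    rw [_root_.sub_ne_zero]
    intro h
    exact (Finset.ne_of_mem_erase hj) (D.inj (linForm_injective (hinj h)))
  have ha : A (linForm (D.L i)) ≠ 0 := by
    rw [ne_eq, map_eq_zero_iff _ hinj]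
    exact linForm_ne_zero (D.L_ne_zero i)
  have h4 : ∏ x ∈ Finset.univ.erase i, A (linForm (D.L x) - linForm (D.L i)) =
      ∏ j ∈ Finset.univ.erase i, (A (linForm (D.L j)) - A (linForm (D.L i))) :=
    Finset.prod_congr rfl fun j _ => map_sub _ _ _
  rw [h4] at h3
  set P := ∏ j ∈ Finset.univ.erase i, (A (linForm (D.L j)) - A (linForm (D.L i)))
  set R := ∏ j ∈ Finset.univ.erase i, A (linForm (D.L j))
  set a := A (linForm (D.L i))
  set h := A ((pullback (D.arr.par (D.idx none) D.chart)) (H i))
  rw [hb] at h3 ⊢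
  rw [← mul_div_assoc, ← mul_div_assoc, eq_div_iff hP]
  apply mul_left_cancel₀ ha
  linear_combination -h3

/-- Everything vanishing on all subspaces lies in the residue ideal. -/
theorem mem_residueIdeal (f : MvPolynomial (Fin n) K) (hf : ∀ i, f ∈ subspaceIdeal (D.Xs i)) :
    f ∈ D.arr.residueIdeal (D.idx none) D.chart := by
  have hex : ∀ i, ∃ H, D.Q' * rename Fin.succ ((D.kpoly f).eval (linForm (D.L i))) = D.G i * H :=
    fun i => D.G_dvd i (hf i)
  choose H hH using hex
  obtain ⟨p, hp⟩ := D.exists_gamma_eq (D.kpoly f) hH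
  rw [kpoly_eval_zero] at hp
  have hmem := D.num_mem (D.kpoly f) hH
  obtain ⟨f', hf'⟩ := D.arr.redQ_dvd (D.idx none) D.chart hmem (D.pullback_num H)
  have h1 : f' ∈ D.arr.residueIdeal (D.idx none) D.chart :=
    D.arr.mem_residueIdeal (D.idx none) D.chart hmem (D.pullback_num H) hf'
  obtain ⟨e, he⟩ := D.bN_dvd_redQ
  have hbN : D.b * D.N ≠ 0 := mul_ne_zero D.b_ne_zero D.N_ne_zero
  have h2 : D.b = D.arr.polyB (D.idx none) D.chart * e := by
    have h := D.restQ_eq'
    rw [Arrangement.restQ_eq, he] at h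
    apply mul_left_cancel₀ hbN
    linear_combination -h
  have h3 : f + p * D.b = e * f' := by
    apply mul_left_cancel₀ hbN
    rw [← hp, hf', he]
    ring
  have h4 : f = e * f' - p * e * D.arr.polyB (D.idx none) D.chart := by
    linear_combination h3 - p * h2
  rw [h4]
  exact Ideal.sub_mem _ (Ideal.mul_mem_left _ _ h1)
    (Ideal.mul_mem_left _ _ (D.arr.polyB_mem (D.idx none) D.chart))

/-- The residue ideal is the intersection of the ideals of the subspaces. -/
theorem residueIdeal_eq (B : Finset (Submodule K (Fin n → K)))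
    (h1 : ∀ i, D.Xs i ∈ B) (h2 : ∀ X ∈ B, ∃ i, D.Xs i = X) :
    D.arr.residueIdeal (D.idx none) D.chart = definingIdeal B := by
  apply le_antisymm
  · rw [definingIdeal]
    refine le_iInf₂ fun X hX => ?_
    obtain ⟨i, rfl⟩ := h2 X hX
    exact D.residueIdeal_le i
  · intro f hf
    rw [definingIdeal] at hf
    simp only [Ideal.mem_iInf] at hf
    exact D.mem_residueIdeal f fun i => hf _ (h1 i)

end Gen

end Pool.Agent.ResIdeal
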