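import Pool.Agent.Hhelper83.ResQ1.Finite

/-!
# The counterexample over a finite field
-/

set_option autoImplicit false

open MvPolynomial

namespace Pool.Agent.ResIdeal

universe u

variable {K : Type u} [Field K]

/-- The codimension two subspace cut out by two linear forms. -/
def pencilSub {n : ℕ} (p q : Fin n → K) : Submodule K (Fin n → K) where
  carrier := {x | p ⬝ᵥ x = 0 ∧ q ⬝ᵥ x = 0}
  add_mem' {x y} hx hy := by
    simp only [Set.mem_ofPred_eq] at hx hy ⊢
    rw [dotProduct_add, dotProduct_add, hx.1, hx.2, hy.1, hy.2, add_zero]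
    exact ⟨rfl, rfl⟩
  zero_mem' := by simp
  smul_mem' c x hx := by
    simp only [Set.mem_ofPred_eq] at hx ⊢
    rw [dotProduct_smul, dotProduct_smul, hx.1, hx.2, smul_zero]
    exact ⟨rfl, rfl⟩

lemma mem_pencilSub {n : ℕ} {p q : Fin n → K} {x : Fin n → K} :
    x ∈ pencilSub p q ↔ p ⬝ᵥ x = 0 ∧ q ⬝ᵥ x = 0 := Iff.rfl

lemma finrank_pencilSub {n : ℕ} {p q : Fin n → K}
    (hind : ∀ s t : K, s • p + t • q = 0 → s = 0 ∧ t = 0) :
    Module.finrank K (pencilSub p q) + 2 = n := by
  let M : Matrix (Fin 2) (Fin n) K := ![p, q]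
  have hli : LinearIndependent K M.row := by
    rw [Fintype.linearIndependent_iff]
    intro g hg
    rw [Fin.sum_univ_two] at hg
    have := hind (g 0) (g 1) hg
    intro i
    fin_cases i
    · exact this.1
    · exact this.2
  have hrank := hli.rank_matrix
  rw [Fintype.card_fin, Matrix.rank] at hrank
  have hker : LinearMap.ker M.mulVecLin = pencilSub p q := by
    ext x
    rw [LinearMap.mem_ker, mem_pencilSub, Matrix.mulVecLin_apply]
    constructor
    · intro h
      exact ⟨congrFun h 0, congrFun h 1⟩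
    · rintro ⟨h0, h1⟩
      funext i
      fin_cases i
      · exact h0
      · exact h1
  have h := LinearMap.finrank_range_add_finrank_ker M.mulVecLin
  rw [hker, hrank, Module.finrank_fintype_fun_eq_card, Fintype.card_fin] at h
  omega

theorem exists_counterexample (K : Type u) [Field K] [Finite K] :
    ∃ (n : ℕ) (B : Finset (Submodule K (Fin n → K))),
      (∀ X ∈ B, Module.finrank K X + 2 = n) ∧
      ∀ (ℓ : ℕ) (A : Arrangement K ℓ) (i : Fin A.card) (φ : (Fin n → K) ≃ₗ[K] A.hyperplane i),
        A.residueIdeal i φ ≠ definingIdeal B := by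
  classical
  obtain ⟨n, hn⟩ := exists_mono_plane K
  have hfin : Finite (Submodule K (Fin n → K)) :=
    Finite.of_injective (fun X : Submodule K (Fin n → K) => (X : Set (Fin n → K)))
      SetLike.coe_injective
  refine ⟨n, (Set.toFinite {X : Submodule K (Fin n → K) | Module.finrank K X + 2 = n}).toFinset,
    ?_, ?_⟩
  · intro X hX
    rw [Set.Finite.mem_toFinset] at hX
    exact hX
  · intro ℓ A i φ heq
    obtain ⟨p, q, hind, hmono⟩ := hn
      (fun v => ∃ j, j ≠ i ∧ ∃ r : K, r ≠ 0 ∧ A.resVec i φ (A.α j) = r • v) (by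
        intro t v ht
        constructor
        · rintro ⟨j, hj, r, hr, h⟩
          exact ⟨j, hj, r * t, mul_ne_zero hr ht, by rw [h, smul_smul]⟩
        · rintro ⟨j, hj, r, hr, h⟩
          refine ⟨j, hj, r * t⁻¹, mul_ne_zero hr (inv_ne_zero ht), ?_⟩
          rw [h, smul_smul, mul_assoc, inv_mul_cancel₀ ht, mul_one])
    refine A.not_le_of_mono i φ (pencilSub p q) p q hind (fun x => mem_pencilSub) hmono ?_
    rw [heq]
    refine iInf₂_le (pencilSub p q) ?_
    rw [Set.Finite.mem_toFinset]
    exact finrank_pencilSub hind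

end Pool.Agent.ResIdeal
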