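import Pool.Agent.Hhelper83.ResQ1.Choice

/-!
# Over an infinite field every codimension two subspace arrangement is realised
-/

set_option autoImplicit false

open MvPolynomial

namespace Pool.Agent.ResIdeal

universe u

variable {K : Type u} [Field K]

/-- the vector `p_a + t_{a,b} d_a` -/
def Lv {n m : ℕ} (p d : Fin m → Fin n → K) (t : Fin m × Bool → K) (i : Fin m × Bool) :
    Fin n → K := p i.1 + t i • d i.1

/-- the same vector with polynomial entries -/
noncomputable def LvP {n m : ℕ} (p d : Fin m → Fin n → K) (i : Fin m × Bool) (r : Fin n) :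
    MvPolynomial (Fin m × Bool) K := C (p i.1 r) + X i * C (d i.1 r)

lemma eval_LvP {n m : ℕ} (p d : Fin m → Fin n → K) (t : Fin m × Bool → K) (i : Fin m × Bool)
    (r : Fin n) : MvPolynomial.eval t (LvP p d i r) = Lv p d t i r := by
  simp [LvP, Lv]

lemma Lv_update_self {n m : ℕ} (p d : Fin m → Fin n → K) (t : Fin m × Bool → K)
    (i : Fin m × Bool) (s : K) :
    Lv p d (Function.update t i s) i = p i.1 + s • d i.1 := by
  simp [Lv]

lemma Lv_update_ne {n m : ℕ} (p d : Fin m → Fin n → K) (t : Fin m × Bool → K)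
    {i j : Fin m × Bool} (h : i ≠ j) (s : K) :
    Lv p d (Function.update t j s) i = Lv p d t i := by
  simp [Lv, Function.update_of_ne h]

section

variable {n m : ℕ} (Xs : Fin m → Submodule K (Fin n → K)) (p d : Fin m → Fin n → K)
  (hdot : ∀ a b, a ≠ b → ∃ y ∈ Xs b, d a ⬝ᵥ y ≠ 0)

include hdot

lemma generic_C1 (i : Fin m × Bool) (a : Fin m) (h : i.1 ≠ a) :
    Generic (fun t : Fin m × Bool → K => ∃ x ∈ Xs a, Lv p d t i ⬝ᵥ x ≠ 0) := by
  obtain ⟨y, hy, hne⟩ := hdot i.1 a h
  have hev : ∀ t, MvPolynomial.eval t (∑ r, LvP p d i r * C (y r)) = Lv p d t i ⬝ᵥ y := by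
    intro t
    rw [map_sum, dotProduct]
    refine Finset.sum_congr rfl fun r _ => ?_
    rw [map_mul, eval_LvP, eval_C]
  refine Generic.of_eval (∑ r, LvP p d i r * C (y r))
    (fun _ => (1 - p i.1 ⬝ᵥ y) / (d i.1 ⬝ᵥ y)) ?_ ?_
  · rw [hev, Lv, add_dotProduct, smul_dotProduct, smul_eq_mul, div_mul_cancel₀ _ hne]
    simp
  · intro t ht
    rw [hev] at ht
    exact ⟨y, hy, ht⟩

lemma generic_C2 (i j : Fin m × Bool) (h : i.1 ≠ j.1) (a : Fin m) :
    Generic (fun t : Fin m × Bool → K => ∃ x ∈ Xs a, (Lv p d t j - Lv p d t i) ⬝ᵥ x ≠ 0) := by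
  have hij : i ≠ j := fun h' => h (by rw [h'])
  have hev : ∀ t y, MvPolynomial.eval t (∑ r, (LvP p d j r - LvP p d i r) * C (y r)) =
      (Lv p d t j - Lv p d t i) ⬝ᵥ y := by
    intro t y
    rw [map_sum, dotProduct]
    refine Finset.sum_congr rfl fun r _ => ?_
    rw [map_mul, map_sub, eval_LvP, eval_LvP, eval_C]
    rfl
  by_cases hj : j.1 = a
  · obtain ⟨y, hy, hne⟩ := hdot i.1 a (fun h' => h (h'.trans hj.symm))
    refine Generic.of_eval (∑ r, (LvP p d j r - LvP p d i r) * C (y r))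
      (Function.update 0 i ((p j.1 ⬝ᵥ y - p i.1 ⬝ᵥ y - 1) / (d i.1 ⬝ᵥ y))) ?_ ?_
    · rw [hev, Lv_update_self, Lv_update_ne p d _ hij.symm, Lv, sub_dotProduct, add_dotProduct,
        add_dotProduct, smul_dotProduct, smul_dotProduct, smul_eq_mul, smul_eq_mul,
        div_mul_cancel₀ _ hne, Pi.zero_apply, zero_mul, add_zero]
      intro h0
      exact one_ne_zero (by linear_combination h0)
    · intro t ht
      rw [hev] at ht
      exact ⟨y, hy, ht⟩
  · obtain ⟨y, hy, hne⟩ := hdot j.1 a hj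
    refine Generic.of_eval (∑ r, (LvP p d j r - LvP p d i r) * C (y r))
      (Function.update 0 j ((p i.1 ⬝ᵥ y - p j.1 ⬝ᵥ y + 1) / (d j.1 ⬝ᵥ y))) ?_ ?_
    · rw [hev, Lv_update_self, Lv_update_ne p d _ hij, Lv, sub_dotProduct, add_dotProduct,
        add_dotProduct, smul_dotProduct, smul_dotProduct, smul_eq_mul, smul_eq_mul,
        div_mul_cancel₀ _ hne, Pi.zero_apply, zero_mul, add_zero]
      intro h0
      exact one_ne_zero (by linear_combination h0)
    · intro t ht
      rw [hev] at ht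
      exact ⟨y, hy, ht⟩

end

lemma generic_C0 {m : ℕ} (i j : Fin m × Bool) (h : i ≠ j) :
    Generic (fun t : Fin m × Bool → K => t i ≠ t j) := by
  refine Generic.of_eval (X i - X j) (Function.update 0 i 1) ?_ ?_
  · simp [Function.update_of_ne h.symm]
  · intro t ht h'
    apply ht
    simp [h']

/-- first group of conditions -/
def Cond1 {n m : ℕ} (Xs : Fin m → Submodule K (Fin n → K)) (p d : Fin m → Fin n → K)
    (t : Fin m × Bool → K) : Prop :=
  (∀ i j, i ≠ j → t i ≠ t j) ∧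
  (∀ (i : Fin m × Bool) (a : Fin m), i.1 ≠ a → ∃ x ∈ Xs a, Lv p d t i ⬝ᵥ x ≠ 0) ∧
  (∀ (i j : Fin m × Bool), i.1 ≠ j.1 → ∀ a : Fin m,
    ∃ x ∈ Xs a, (Lv p d t j - Lv p d t i) ⬝ᵥ x ≠ 0)

lemma generic_cond1 {n m : ℕ} (Xs : Fin m → Submodule K (Fin n → K)) (p d : Fin m → Fin n → K)
    (hdot : ∀ a b, a ≠ b → ∃ y ∈ Xs b, d a ⬝ᵥ y ≠ 0) : Generic (Cond1 Xs p d) := by
  refine Generic.and ?_ (Generic.and ?_ ?_)
  · exact Generic.all fun i => Generic.all fun j => Generic.imp fun h => generic_C0 i j h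
  · exact Generic.all fun i => Generic.all fun a => Generic.imp fun h =>
      generic_C1 Xs p d hdot i a h
  · exact Generic.all fun i => Generic.all fun j => Generic.imp fun h => Generic.all fun a =>
      generic_C2 Xs p d hdot i j h a

/-- if two vectors are not proportional then some minor does not vanish -/
lemma exists_minor {n : ℕ} {u v : Fin n → K} (hv : v ≠ 0) (h : ∀ s : K, u ≠ s • v) :
    ∃ r s, u r * v s - u s * v r ≠ 0 := by
  by_contra hcon
  push Not at hcon
  obtain ⟨s, hs⟩ := Function.ne_iff.mp hv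
  simp only [Pi.zero_apply] at hs
  refine h (u s / v s) ?_
  funext r
  have := hcon r s
  rw [Pi.smul_apply, smul_eq_mul]
  field_simp
  linear_combination this

lemma generic_C3_aux [Infinite K] {n m : ℕ} (Xs : Fin m → Submodule K (Fin n → K))
    (p d : Fin m → Fin n → K) (hdot : ∀ a b, a ≠ b → ∃ y ∈ Xs b, d a ⬝ᵥ y ≠ 0)
    (hd0 : ∀ a, d a ≠ 0)
    (hdX : ∀ a, ∀ x ∈ Xs a, d a ⬝ᵥ x = 0) (i j k l : Fin m × Bool) (hij : i.1 ≠ j.1)
    (hli : l ≠ i) (hlj : l ≠ j) (hlk : l ≠ k) :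
    Generic (fun t : Fin m × Bool → K => ∀ s : K,
      Lv p d t l - Lv p d t k ≠ s • (Lv p d t j - Lv p d t i)) := by
  obtain ⟨t1, ht1⟩ := (generic_cond1 Xs p d hdot).exists
  obtain ⟨x, hx, hxne⟩ := ht1.2.2 i j hij l.1
  set v := Lv p d t1 j - Lv p d t1 i with hv
  have hv0 : v ≠ 0 := by
    rintro h0
    rw [h0, zero_dotProduct] at hxne
    exact hxne rfl
  have hnp : ∀ s : K, v ≠ s • d l.1 := by
    intro s hs
    rw [hs, smul_dotProduct, hdX _ x hx, smul_zero] at hxne
    exact hxne rfl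
  obtain ⟨r, s, hrs⟩ := exists_minor (hd0 l.1) hnp
  -- the minor of the two difference vectors
  have hev : ∀ t, MvPolynomial.eval t ((LvP p d l r - LvP p d k r) * (LvP p d j s - LvP p d i s) -
      (LvP p d l s - LvP p d k s) * (LvP p d j r - LvP p d i r)) =
      (Lv p d t l r - Lv p d t k r) * (Lv p d t j s - Lv p d t i s) -
      (Lv p d t l s - Lv p d t k s) * (Lv p d t j r - Lv p d t i r) := by
    intro t
    simp only [map_sub, map_mul, eval_LvP]
  have hc : d l.1 r * v s - d l.1 s * v r ≠ 0 := by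
    intro h
    apply hrs
    linear_combination -h
  set A0 : K := (p l.1 r - Lv p d t1 k r) * v s - (p l.1 s - Lv p d t1 k s) * v r with hA0
  refine Generic.of_eval ((LvP p d l r - LvP p d k r) * (LvP p d j s - LvP p d i s) -
      (LvP p d l s - LvP p d k s) * (LvP p d j r - LvP p d i r))
    (Function.update t1 l ((1 - A0) / (d l.1 r * v s - d l.1 s * v r)))
    ?_ (fun t ht s' hs' => ?_)
  · rw [hev, Lv_update_self, Lv_update_ne p d _ hlk.symm, Lv_update_ne p d _ hlj.symm,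
      Lv_update_ne p d _ hli.symm]
    have hvs : Lv p d t1 j s - Lv p d t1 i s = v s := rfl
    have hvr : Lv p d t1 j r - Lv p d t1 i r = v r := rfl
    rw [hvs, hvr, Pi.add_apply, Pi.add_apply, Pi.smul_apply, Pi.smul_apply, smul_eq_mul,
      smul_eq_mul]
    set q := (1 - A0) / (d l.1 r * v s - d l.1 s * v r) with hq
    have hq' : q * (d l.1 r * v s - d l.1 s * v r) = 1 - A0 := div_mul_cancel₀ _ hc
    have : (p l.1 r + q * d l.1 r - Lv p d t1 k r) * v s -
        (p l.1 s + q * d l.1 s - Lv p d t1 k s) * v r = 1 := by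
      rw [hA0] at hq'
      linear_combination hq'
    rw [this]
    exact one_ne_zero
  · apply ht
    rw [hev]
    have h1 := congrFun hs' r
    have h2 := congrFun hs' s
    simp only [Pi.sub_apply, Pi.smul_apply, smul_eq_mul] at h1 h2
    rw [h1, h2]
    ring

lemma generic_C3 [Infinite K] {n m : ℕ} (Xs : Fin m → Submodule K (Fin n → K))
    (p d : Fin m → Fin n → K) (hdot : ∀ a b, a ≠ b → ∃ y ∈ Xs b, d a ⬝ᵥ y ≠ 0)
    (hd0 : ∀ a, d a ≠ 0)
    (hdX : ∀ a, ∀ x ∈ Xs a, d a ⬝ᵥ x = 0) (i j k l : Fin m × Bool) (hij : i.1 ≠ j.1)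
    (hkl : k ≠ l) (h1 : ¬ (k = i ∧ l = j)) (h2 : ¬ (k = j ∧ l = i)) :
    Generic (fun t : Fin m × Bool → K => ∀ s : K,
      Lv p d t l - Lv p d t k ≠ s • (Lv p d t j - Lv p d t i)) := by
  by_cases hl : l ≠ i ∧ l ≠ j
  · exact generic_C3_aux Xs p d hdot hd0 hdX i j k l hij hl.1 hl.2 hkl.symm
  · have hk : k ≠ i ∧ k ≠ j := by
      constructor
      · rintro rfl
        apply hl
        refine ⟨hkl.symm, fun h => h1 ⟨rfl, h⟩⟩
      · rintro rfl
        apply hl
        exact ⟨fun h => h2 ⟨rfl, h⟩, hkl.symm⟩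
    obtain ⟨f, hf, hf'⟩ := generic_C3_aux Xs p d hdot hd0 hdX i j l k hij hk.1 hk.2 hkl
    refine ⟨f, hf, fun t ht s hs => hf' t ht (-s) ?_⟩
    rw [neg_smul, ← hs, neg_sub]

theorem exists_gen [Infinite K] {n m : ℕ} (Xs : Fin m → Submodule K (Fin n → K))
    (hX : ∀ a, Module.finrank K (Xs a) + 2 = n) (hinj : Function.Injective Xs) :
    ∃ D : Gen K n (Fin m × Bool), ∀ i, D.Xs i = Xs i.1 := by
  obtain ⟨w, hw⟩ := exists_w Xs
  have hwX : ∀ a, w ∉ Xs a := by
    intro a ha
    have h := hw a a (by rwa [sup_idem])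
    rw [sup_idem] at h
    have h1 := hX a
    rw [h, finrank_top, Module.finrank_fin_fun] at h1
    omega
  choose p d hp hdw hd0 hpX hdX hspan using fun a => exists_pd (Xs a) (hX a) w (hwX a)
  have hdot : ∀ a b, a ≠ b → ∃ y ∈ Xs b, d a ⬝ᵥ y ≠ 0 := fun a b hab =>
    exists_dot_ne (hX a) (hX b) (fun h => hab (hinj h)) (hw a b) (hd0 a) (hdw a) (hdX a)
  have hC3 : Generic (fun t : Fin m × Bool → K => ∀ i j k l : Fin m × Bool, i.1 ≠ j.1 → k ≠ l →
      ¬ (k = i ∧ l = j) → ¬ (k = j ∧ l = i) → ∀ s : K,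
      Lv p d t l - Lv p d t k ≠ s • (Lv p d t j - Lv p d t i)) :=
    Generic.all fun i => Generic.all fun j => Generic.all fun k => Generic.all fun l =>
      Generic.imp fun hij => Generic.imp fun hkl => Generic.imp fun h1 => Generic.imp fun h2 =>
        generic_C3 Xs p d hdot hd0 hdX i j k l hij hkl h1 h2
  obtain ⟨t, ⟨hT0, hT1, hT2⟩, hT3⟩ := ((generic_cond1 Xs p d hdot).and hC3).exists
  have hLw : ∀ i, Lv p d t i ⬝ᵥ w = 1 := by
    intro i
    rw [Lv, add_dotProduct, smul_dotProduct, hp, hdw, smul_zero, add_zero]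
  have hLX : ∀ i : Fin m × Bool, ∀ x ∈ Xs i.1, Lv p d t i ⬝ᵥ x = 0 := by
    intro i x hx
    rw [Lv, add_dotProduct, smul_dotProduct, hpX _ x hx, hdX _ x hx, smul_zero, add_zero]
  have hinjL : Function.Injective (Lv p d t) := by
    intro i j hij
    by_contra hne
    by_cases h : i.1 = j.1
    · have h1 : (t i - t j) • d i.1 = 0 := by
        rw [Lv, Lv, ← h] at hij
        rw [sub_smul, add_left_cancel hij, sub_self]
      rcases smul_eq_zero.mp h1 with h2 | h2
      · exact hT0 i j hne (sub_eq_zero.mp h2)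
      · exact hd0 _ h2
    · obtain ⟨x, hx, hxne⟩ := hT1 i j.1 h
      rw [hij] at hxne
      exact hxne (hLX j x hx)
  have hst : ∀ i j : Fin m × Bool, i ≠ j → j ≠ (i.1, !i.2) → i.1 ≠ j.1 := by
    intro i j h1 h2 h3
    have h4 : i.2 ≠ j.2 := fun h => h1 (Prod.ext h3 h)
    apply h2
    refine Prod.ext h3.symm ?_
    revert h4
    cases i.2 <;> cases j.2 <;> simp
  refine ⟨{ st := fun i => (i.1, !i.2)
            L := Lv p d t
            w := w
            Xs := fun i => Xs i.1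
            st_ne := ?_
            st_st := ?_
            hw := hLw
            inj := hinjL
            npar := ?_
            vanish := ?_
            span := ?_
            out1 := ?_
            out2 := ?_ }, fun i => rfl⟩
  · intro i h
    have := congrArg Prod.snd h
    simp at this
  · intro i
    simp
  · intro i j k l h1 h2 h3 h4 h5 s
    exact hT3 i j k l (hst i j h1 h2) h3 h4 h5 s
  · intro i x hx
    exact ⟨hLX i x hx, hLX (i.1, !i.2) x hx⟩
  · intro i c hc
    obtain ⟨s, hs⟩ := hspan i.1 c hc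
    -- `c = α p + s d`, `L i = p + t d`, `L i' = p + t' d`
    have hne : t i - t (i.1, !i.2) ≠ 0 := by
      refine _root_.sub_ne_zero.mpr (hT0 _ _ ?_)
      intro h
      have := congrArg Prod.snd h
      simp at this
    refine ⟨(s - (c ⬝ᵥ w) * t (i.1, !i.2)) / (t i - t (i.1, !i.2)),
      ((c ⬝ᵥ w) * t i - s) / (t i - t (i.1, !i.2)), ?_⟩
    funext r
    have hr := congrFun hs r
    simp only [Pi.add_apply, Pi.smul_apply, smul_eq_mul, Lv] at hr ⊢
    rw [hr]
    field_simp
    ring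
  · intro i k h1 h2 h3
    obtain ⟨x, hx, hxne⟩ := hT1 k i.1 (fun h => hst i k (Ne.symm h1) h2 h.symm)
    rw [linForm_mem_subspaceIdeal] at h3
    exact hxne (h3 x hx)
  · intro i k l h1 h2 h3
    obtain ⟨x, hx, hxne⟩ := hT2 k l (hst k l h1 h2) i.1
    rw [linForm_mem_subspaceIdeal] at h3
    exact hxne (h3 x hx)

/-- Over an infinite field every codimension two subspace arrangement is realised. -/
theorem realise [Infinite K] {n : ℕ} (B : Finset (Submodule K (Fin n → K)))
    (hB : ∀ X ∈ B, Module.finrank K X + 2 = n) :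
    ∃ (ℓ : ℕ) (A : Arrangement K ℓ) (i : Fin A.card) (φ : (Fin n → K) ≃ₗ[K] A.hyperplane i),
      A.residueIdeal i φ = definingIdeal B := by
  classical
  obtain ⟨D, hD⟩ := exists_gen (fun a : Fin B.card => (B.equivFin.symm a : Submodule K (Fin n → K)))
    (fun a => hB _ (B.equivFin.symm a).2)
    (fun a b h => B.equivFin.symm.injective (Subtype.ext h))
  refine ⟨n + 1, D.arr, D.idx none, D.chart, D.residueIdeal_eq B ?_ ?_⟩
  · intro i
    rw [hD]
    exact (B.equivFin.symm i.1).2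
  · intro X hX
    refine ⟨(B.equivFin ⟨X, hX⟩, true), ?_⟩
    rw [hD]
    simp

end Pool.Agent.ResIdeal
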