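import Pool.Agent.Hhelper83.ResQ1.Basic

/-!
# The local upper bound for the residue ideal
-/

set_option autoImplicit false

open MvPolynomial

namespace Pool.Agent.ResIdeal

universe u

variable {K : Type u} [Field K]

namespace Arrangement

variable {ℓ : ℕ} (A : Arrangement K ℓ) (i : Fin A.card) {d : ℕ}
  (φ : (Fin d → K) ≃ₗ[K] A.hyperplane i)

lemma firstReps_relPrime {j k : Fin A.card} (hj : j ∈ A.firstReps i) (hk : k ∈ A.firstReps i)
    (hjk : j ≠ k) :
    IsRelPrime (linForm (A.resVec i φ (A.α j))) (linForm (A.resVec i φ (A.α k))) := by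
  rw [firstReps, Finset.mem_filter] at hj hk
  refine isRelPrime_linForm (A.resVec_ne_zero i φ hj.2.1) fun t ht => ?_
  have ht0 : t ≠ 0 := by
    rintro rfl
    rw [zero_smul] at ht
    exact A.resVec_ne_zero i φ hk.2.1 ht
  have heq : A.hyperplane j ⊓ A.hyperplane i = A.hyperplane k ⊓ A.hyperplane i := by
    ext x
    simp only [Submodule.mem_inf]
    constructor
    · rintro ⟨h1, h2⟩
      refine ⟨?_, h2⟩
      obtain ⟨w, rfl⟩ := A.par_surj i φ x h2
      change A.α k ⬝ᵥ A.par i φ w = 0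
      change A.α j ⬝ᵥ A.par i φ w = 0 at h1
      rw [← resVec_dot] at h1 ⊢
      rw [ht, smul_dotProduct, h1, smul_zero]
    · rintro ⟨h1, h2⟩
      refine ⟨?_, h2⟩
      obtain ⟨w, rfl⟩ := A.par_surj i φ x h2
      change A.α j ⬝ᵥ A.par i φ w = 0
      change A.α k ⬝ᵥ A.par i φ w = 0 at h1
      rw [← resVec_dot] at h1 ⊢
      rw [ht, smul_dotProduct, smul_eq_mul] at h1
      exact (mul_eq_zero.mp h1).resolve_left ht0
  rcases lt_trichotomy j k with h | h | h
  · exact hk.2.2 j h hj.2.1 heq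
  · exact hjk h
  · exact hj.2.2 k h hk.2.1 heq.symm

lemma resVec_sub_self (c : Fin ℓ → K) : A.resVec i φ (c - A.α i) = A.resVec i φ c := by
  have h := A.resVec_self i φ
  ext k
  have hk := congrFun h k
  simp only [resVec, Pi.zero_apply] at hk ⊢
  rw [sub_dotProduct, hk, sub_zero]

lemma dvd_contr {g : Fin ℓ → MvPolynomial (Fin ℓ) K} (hg : g ∈ A.logForm) (m : Fin A.card)
    (e e' : Fin ℓ → K) (h1 : A.α m ⬝ᵥ e' = 1) (h0 : A.α m ⬝ᵥ e = 0) :
    linForm (A.α m) ∣ ∑ j, g j * C (e j) := by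
  have h := A.contract hg m e e'
  rwa [h1, h0, C_1, C_0, mul_one, mul_zero, sub_zero] at h

theorem residueIdeal_le_subspaceIdeal (U : Submodule K (Fin d → K)) (p p' q q' : Fin A.card)
    (hp' : A.α p' = A.α p - A.α i) (hq' : A.α q' = A.α q - A.α i) (ea ep eq : Fin ℓ → K)
    (haa : A.α i ⬝ᵥ ea = 1) (hap : A.α i ⬝ᵥ ep = 0) (haq : A.α i ⬝ᵥ eq = 0)
    (hpa : A.α p ⬝ᵥ ea = 0) (hpp : A.α p ⬝ᵥ ep = 1) (hpq : A.α p ⬝ᵥ eq = 0)
    (hqa : A.α q ⬝ᵥ ea = 0) (hqp : A.α q ⬝ᵥ ep = 0) (hqq : A.α q ⬝ᵥ eq = 1)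
    (hpX : linForm (A.resVec i φ (A.α p)) ∈ subspaceIdeal U)
    (hqX : linForm (A.resVec i φ (A.α q)) ∈ subspaceIdeal U)
    (hother : ∀ m, m ≠ i → m ≠ p → m ≠ p' → m ≠ q → m ≠ q' →
      linForm (A.resVec i φ (A.α m)) ∉ subspaceIdeal U) :
    A.residueIdeal i φ ≤ subspaceIdeal U := by
  classical
  have hprime := subspaceIdeal_isPrime U
  -- the five members are distinct
  have dot : ∀ {m m' : Fin A.card} (e : Fin ℓ → K), A.α m ⬝ᵥ e ≠ A.α m' ⬝ᵥ e → m ≠ m' := by
    intro m m' e h heq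
    exact h (by rw [heq])
  have hp'a : A.α p' ⬝ᵥ ea = -1 := by rw [hp', sub_dotProduct, hpa, haa]; ring
  have hp'p : A.α p' ⬝ᵥ ep = 1 := by rw [hp', sub_dotProduct, hpp, hap]; ring
  have hp'q : A.α p' ⬝ᵥ eq = 0 := by rw [hp', sub_dotProduct, hpq, haq]; ring
  have hq'a : A.α q' ⬝ᵥ ea = -1 := by rw [hq', sub_dotProduct, hqa, haa]; ring
  have hq'p : A.α q' ⬝ᵥ ep = 0 := by rw [hq', sub_dotProduct, hqp, hap]; ring
  have hq'q : A.α q' ⬝ᵥ eq = 1 := by rw [hq', sub_dotProduct, hqq, haq]; ring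
  have n1 : i ≠ p := dot ep (by rw [hap, hpp]; exact zero_ne_one)
  have n2 : i ≠ p' := dot ep (by rw [hap, hp'p]; exact zero_ne_one)
  have n3 : i ≠ q := dot eq (by rw [haq, hqq]; exact zero_ne_one)
  have n4 : i ≠ q' := dot eq (by rw [haq, hq'q]; exact zero_ne_one)
  have n5 : p ≠ p' := dot ea (by rw [hpa, hp'a]; simp)
  have n6 : p ≠ q := dot ep (by rw [hpp, hqp]; exact one_ne_zero)
  have n7 : p ≠ q' := dot ep (by rw [hpp, hq'p]; exact one_ne_zero)
  have n8 : p' ≠ q := dot ep (by rw [hp'p, hqp]; exact one_ne_zero)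
  have n9 : p' ≠ q' := dot ep (by rw [hp'p, hq'p]; exact one_ne_zero)
  have n10 : q ≠ q' := dot ea (by rw [hqa, hq'a]; simp)
  apply A.residueIdeal_le i φ
  intro g hg γ f hγ hf
  -- abbreviations
  set a := linForm (A.α i) with ha
  set P := linForm (A.α p) with hP
  set P' := linForm (A.α p') with hP'
  set Q := linForm (A.α q) with hQ
  set Q' := linForm (A.α q') with hQ'
  have hprod3 : ∀ {x y z : Fin A.card} {F : MvPolynomial (Fin ℓ) K}, x ≠ y → x ≠ z → y ≠ z →
      linForm (A.α x) ∣ F → linForm (A.α y) ∣ F → linForm (A.α z) ∣ F →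
      linForm (A.α x) * (linForm (A.α y) * linForm (A.α z)) ∣ F := by
    intro x y z F h1 h2 h3 d1 d2 d3
    have h := A.prod_dvd_of_forall (s := {x, y, z}) (z := F) (by
      intro m hm
      simp only [Finset.mem_insert, Finset.mem_singleton] at hm
      rcases hm with rfl | rfl | rfl <;> assumption)
    rwa [Finset.prod_insert (by simp [h1, h2]), Finset.prod_insert (by simp [h3]),
      Finset.prod_singleton] at h
  have hprod5 : ∀ {F : MvPolynomial (Fin ℓ) K}, a ∣ F → P ∣ F → P' ∣ F → Q ∣ F → Q' ∣ F →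
      a * (P * (P' * (Q * Q'))) ∣ F := by
    intro F d1 d2 d3 d4 d5
    have h := A.prod_dvd_of_forall (s := {i, p, p', q, q'}) (z := F) (by
      intro m hm
      simp only [Finset.mem_insert, Finset.mem_singleton] at hm
      rcases hm with rfl | rfl | rfl | rfl | rfl <;> assumption)
    rwa [Finset.prod_insert (by simp [n1, n2, n3, n4]), Finset.prod_insert (by simp [n5, n6, n7]),
      Finset.prod_insert (by simp [n8, n9]), Finset.prod_insert (by simp [n10]),
      Finset.prod_singleton] at h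
  -- contractions
  obtain ⟨b1, hb1⟩ : a * (Q * Q') ∣ ∑ j, g j * C (ep j) :=
    hprod3 n3 n4 n10 (A.dvd_contr hg i ep ea haa hap) (A.dvd_contr hg q ep eq hqq hqp)
      (A.dvd_contr hg q' ep eq hq'q hq'p)
  obtain ⟨b2, hb2⟩ : a * (P * P') ∣ ∑ j, g j * C (eq j) :=
    hprod3 n1 n2 n5 (A.dvd_contr hg i eq ea haa haq) (A.dvd_contr hg p eq ep hpp hpq)
      (A.dvd_contr hg p' eq ep hp'p hp'q)
  have hker : ∀ e : Fin ℓ → K, A.α i ⬝ᵥ e = 0 → A.α p ⬝ᵥ e = 0 → A.α q ⬝ᵥ e = 0 →
      a * (P * (P' * (Q * Q'))) ∣ ∑ j, g j * C (e j) := by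
    intro e h1 h2 h3
    refine hprod5 (A.dvd_contr hg i e ea haa h1) (A.dvd_contr hg p e ep hpp h2)
      (A.dvd_contr hg p' e ep hp'p ?_) (A.dvd_contr hg q e eq hqq h3)
      (A.dvd_contr hg q' e eq hq'q ?_)
    · rw [hp', sub_dotProduct, h1, h2, sub_zero]
    · rw [hq', sub_dotProduct, h1, h3, sub_zero]
  have hE : a * (P * (P' * (Q * Q'))) ∣ ∑ j, g j * X j :=
    hprod5 (A.contract_euler hg _) (A.contract_euler hg _) (A.contract_euler hg _)
      (A.contract_euler hg _) (A.contract_euler hg _)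
  let κ : Fin ℓ → Fin ℓ → K := fun m =>
    Pi.single m 1 - (A.α i m • ea + (A.α p m • ep + A.α q m • eq))
  have hκ : ∀ m, a * (P * (P' * (Q * Q'))) ∣ ∑ j, g j * C (κ m j) := by
    intro m
    apply hker
    · simp only [κ, dotProduct_sub, dotProduct_add, dotProduct_smul, haa, hap, haq,
        dotProduct_single, smul_eq_mul]
      ring
    · simp only [κ, dotProduct_sub, dotProduct_add, dotProduct_smul, hpa, hpp, hpq,
        dotProduct_single, smul_eq_mul]
      ring
    · simp only [κ, dotProduct_sub, dotProduct_add, dotProduct_smul, hqa, hqp, hqq,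
        dotProduct_single, smul_eq_mul]
      ring
  have hdec : ∑ j, g j * X j = ∑ m, X m * ∑ j, g j * C (κ m j) +
      (a * ∑ j, g j * C (ea j) + (P * ∑ j, g j * C (ep j) + Q * ∑ j, g j * C (eq j))) := by
    have h1 : ∀ m, ∑ j, g j * C (κ m j) = g m -
        (C (A.α i m) * (∑ j, g j * C (ea j)) + (C (A.α p m) * (∑ j, g j * C (ep j)) +
          C (A.α q m) * (∑ j, g j * C (eq j)))) := by
      intro m
      have h2 : ∀ j, g j * C (κ m j) = g j * C ((Pi.single m (1 : K) : Fin ℓ → K) j) -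
          (C (A.α i m) * (g j * C (ea j)) + (C (A.α p m) * (g j * C (ep j)) +
          C (A.α q m) * (g j * C (eq j)))) := by
        intro j
        simp only [κ, Pi.sub_apply, Pi.add_apply, Pi.smul_apply, smul_eq_mul, C_sub, C_add, C_mul]
        ring
      rw [Finset.sum_congr rfl fun j _ => h2 j, Finset.sum_sub_distrib, Finset.sum_add_distrib,
        Finset.sum_add_distrib, Finset.mul_sum, Finset.mul_sum, Finset.mul_sum]
      congr 1
      rw [Finset.sum_eq_single m]
      · simp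
      · intro b _ hb
        simp [Pi.single_eq_of_ne hb]
      · intro h
        exact absurd (Finset.mem_univ m) h
    simp only [h1, mul_sub, Finset.sum_sub_distrib, mul_add, Finset.sum_add_distrib]
    have h3 : ∀ (c : Fin ℓ → K) (F : MvPolynomial (Fin ℓ) K),
        ∑ m, X m * (C (c m) * F) = linForm c * F := by
      intro c F
      rw [linForm, Finset.sum_mul]
      exact Finset.sum_congr rfl fun m _ => by ring
    rw [h3, h3, h3]
    have h4 : ∑ m, X m * g m = ∑ j, g j * X j := Finset.sum_congr rfl fun m _ => mul_comm _ _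
    rw [h4]
    ring
  obtain ⟨c1, hc1⟩ : a * (P * (P' * (Q * Q'))) ∣
      ∑ j, g j * X j - ∑ m, X m * ∑ j, g j * C (κ m j) :=
    dvd_sub hE (Finset.dvd_sum fun m _ => (hκ m).mul_left _)
  have hea : ∑ j, g j * C (ea j) = P * P' * Q * Q' * c1 - P * Q * Q' * b1 - Q * P * P' * b2 := by
    have ha0 : a ≠ 0 := linForm_ne_zero (A.ne_zero i)
    apply mul_left_cancel₀ ha0
    linear_combination hc1 - hdec + P * (-hb1) + Q * (-hb2)
  -- restrict to the hyperplane
  have hCp : ∀ t : K, pullback (A.par i φ) (C t) = C t := fun t =>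
    (pullback (A.par i φ)).commutes t
  have hγ' : pullback (A.par i φ) (∑ j, g j * C (ea j)) = γ := by
    rw [map_sum]
    have : ∀ j, pullback (A.par i φ) (g j * C (ea j)) = γ * C (A.α i j * ea j) := by
      intro j
      rw [map_mul, hγ, hCp, C_mul]; ring
    rw [Finset.sum_congr rfl fun j _ => this j, ← Finset.mul_sum, ← map_sum]
    have h5 : ∑ j, A.α i j * ea j = 1 := haa
    rw [h5, C_1, mul_one]
  set u := linForm (A.resVec i φ (A.α p)) with hu
  set v := linForm (A.resVec i φ (A.α q)) with hv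
  have hu' : linForm (A.resVec i φ (A.α p')) = u := by rw [hp', resVec_sub_self]
  have hv' : linForm (A.resVec i φ (A.α q')) = v := by rw [hq', resVec_sub_self]
  obtain ⟨ρ, hρ, hγρ⟩ : ∃ ρ ∈ subspaceIdeal U, γ = u * v * ρ := by
    refine ⟨u * v * pullback (A.par i φ) c1 - v * pullback (A.par i φ) b1 -
      u * pullback (A.par i φ) b2, ?_, ?_⟩
    · refine Ideal.sub_mem _ (Ideal.sub_mem _ ?_ ?_) ?_
      · exact Ideal.mul_mem_right _ _ (Ideal.mul_mem_right _ _ hpX)
      · exact Ideal.mul_mem_right _ _ hqX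
      · exact Ideal.mul_mem_right _ _ hpX
    · rw [← hγ', hea, map_sub, map_sub]
      simp only [map_mul, hP, hP', hQ, hQ', A.pullback_par', hu', hv', ← hu, ← hv]
      ring
  -- the part of `redQ` vanishing on `X`
  have hsplit := Finset.prod_filter_mul_prod_filter_not (A.firstReps i)
    (fun j => linForm (A.resVec i φ (A.α j)) ∈ subspaceIdeal U)
    (fun j => linForm (A.resVec i φ (A.α j)))
  set S := ∏ j ∈ A.firstReps i with linForm (A.resVec i φ (A.α j)) ∈ subspaceIdeal U,
    linForm (A.resVec i φ (A.α j)) with hS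
  set R := ∏ j ∈ A.firstReps i with ¬ linForm (A.resVec i φ (A.α j)) ∈ subspaceIdeal U,
    linForm (A.resVec i φ (A.α j)) with hR
  have hred : A.redQ i φ = S * R := hsplit.symm
  have hRX : R ∉ subspaceIdeal U := by
    rw [hR, hprime.prod_mem_iff]
    rintro ⟨j, hj, hj'⟩
    exact (Finset.mem_filter.mp hj).2 hj'
  have hSdvd : S ∣ u * v := by
    apply Finset.prod_dvd_of_isRelPrime
    · intro j hj k hk hjk
      exact A.firstReps_relPrime i φ (Finset.mem_filter.mp hj).1 (Finset.mem_filter.mp hk).1 hjk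
    · intro j hj
      rw [Finset.mem_filter] at hj
      have hji : j ≠ i := by
        have := hj.1
        rw [firstReps, Finset.mem_filter] at this
        exact this.2.1
      by_cases h1 : j = p
      · rw [h1]; exact dvd_mul_right _ _
      by_cases h2 : j = p'
      · rw [h2, hu']; exact dvd_mul_right _ _
      by_cases h3 : j = q
      · rw [h3]; exact dvd_mul_left _ _
      by_cases h4 : j = q'
      · rw [h4, hv']; exact dvd_mul_left _ _
      exact absurd hj.2 (hother j hji h1 h2 h3 h4)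
  obtain ⟨S', hS'⟩ := hSdvd
  have hS0 : S ≠ 0 := by
    intro h0
    rw [h0, zero_mul] at hS'
    have hu0 : u ≠ 0 := linForm_ne_zero (A.resVec_ne_zero i φ n1.symm)
    have hv0 : v ≠ 0 := linForm_ne_zero (A.resVec_ne_zero i φ n3.symm)
    exact mul_ne_zero hu0 hv0 hS'
  have hfin : R * f = S' * ρ := by
    apply mul_left_cancel₀ hS0
    rw [← mul_assoc, ← hred, ← hf, hγρ, hS']
    ring
  have hmem : R * f ∈ subspaceIdeal U := by
    rw [hfin]
    exact Ideal.mul_mem_left _ _ hρ
  exact (hprime.mem_or_mem hmem).resolve_left hRX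

end Arrangement

end Pool.Agent.ResIdeal
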